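import Pool.Agent.Work.MP_180c68_gt.Basic

/-!
MP_180c68_gt: the area of the triangle `(2, 4, 8)` is `π / 8`; its sides have area zero.
-/

set_option autoImplicit false

open UpperHalfPlane MeasureTheory Set
open scoped MatrixGroups ContDiff ComplexConjugate

namespace Iso180

/-! ### Auxiliary integrals -/

theorem lint_of_deriv {f F : ℝ → ℝ} {a b : ℝ} (hab : a ≤ b)
    (hF : ∀ x ∈ Icc a b, HasDerivAt F (f x) x) (hc : ContinuousOn f (Icc a b))
    (h0 : ∀ x ∈ Icc a b, 0 ≤ f x) :
    ∫⁻ x in Icc a b, ENNReal.ofReal (f x) = ENNReal.ofReal (F b - F a) := by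
  have hi : IntegrableOn f (Icc a b) := hc.integrableOn_Icc
  have h1 : 0 ≤ᵐ[volume.restrict (Icc a b)] f :=
    (ae_restrict_iff' measurableSet_Icc).2 (Filter.Eventually.of_forall h0)
  rw [← ofReal_integral_eq_lintegral_ofReal hi h1, integral_Icc_eq_integral_Ioc,
    ← intervalIntegral.integral_of_le hab]
  congr 1
  refine intervalIntegral.integral_eq_sub_of_hasDerivAt (fun x hx => ?_) ?_
  · rw [uIcc_of_le hab] at hx
    exact hF x hx
  · rw [intervalIntegrable_iff_integrableOn_Icc_of_le hab]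
    exact hi

theorem lint_inv_sq {a b : ℝ} (ha : 0 < a) (hab : a ≤ b) :
    ∫⁻ y in Icc a b, ENNReal.ofReal ((y ^ 2)⁻¹) = ENNReal.ofReal (1 / a - 1 / b) := by
  have h : ∀ y ∈ Icc a b, y ≠ 0 := fun y hy => (lt_of_lt_of_le ha hy.1).ne'
  rw [lint_of_deriv (f := fun y => (y ^ 2)⁻¹) (F := fun y => -(y⁻¹)) hab]
  · congr 1
    ring
  · intro y hy
    have h2 : HasDerivAt (fun y : ℝ => -(y⁻¹)) (-(-(y ^ 2)⁻¹)) y := (hasDerivAt_inv (h y hy)).neg
    exact h2.congr_deriv (neg_neg _)
  · refine ContinuousOn.inv₀ (by fun_prop) fun y hy => pow_ne_zero 2 (h y hy)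
  · intro y _
    positivity

/-! ### Sets of area zero -/

theorem vol_zero_of {s : Set ℍ} {t : Set ℂ} (h : ∀ z ∈ s, (z : ℂ) ∈ t) (ht : volume t = 0) :
    volume s = 0 := by
  rw [volume_eq_lintegral]
  refine setLIntegral_measure_zero _ _ (measure_mono_null ?_ ht)
  rintro _ ⟨z, hz, rfl⟩
  exact h z hz

theorem vol_side_a : volume {z : ℍ | z.re = 0} = 0 := by
  refine vol_zero_of (t := (LinearMap.ker Complex.reCLM.toLinearMap : Submodule ℝ ℂ)) ?_ ?_
  · intro z hz
    simpa using hz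
  · refine Measure.addHaar_submodule _ _ ?_
    intro h
    have : (1 : ℂ) ∈ (LinearMap.ker Complex.reCLM.toLinearMap : Submodule ℝ ℂ) := by
      rw [h]; trivial
    simp at this

theorem vol_side_b : volume {z : ℍ | z.re ^ 2 + z.im ^ 2 = 1} = 0 := by
  refine vol_zero_of (t := Metric.sphere (0 : ℂ) 1) ?_ (Measure.addHaar_sphere _ _ _)
  intro z hz
  simp only [mem_ofPred_eq] at hz
  rw [mem_sphere_zero_iff_norm, ← sq_eq_sq₀ (norm_nonneg _) zero_le_one, ← Complex.normSq_eq_norm_sq,
    Complex.normSq_apply]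
  simp only [coe_re, coe_im]
  nlinarith

theorem vol_side_c :
    volume {z : ℍ | alp - del * (z.re ^ 2 + z.im ^ 2) - 2 * kap * z.re = 0} = 0 := by
  refine vol_zero_of (t := Metric.sphere (-(kap / del : ℝ) : ℂ) (1 / del)) ?_
    (Measure.addHaar_sphere _ _ _)
  intro z hz
  simp only [mem_ofPred_eq] at hz
  have hd := del_pos
  have hk := kap_alp_del
  rw [mem_sphere_iff_norm, ← sq_eq_sq₀ (norm_nonneg _) (by positivity),
    ← Complex.normSq_eq_norm_sq, Complex.normSq_apply]
  simp only [Complex.sub_re, Complex.neg_re, Complex.ofReal_re, Complex.sub_im, Complex.neg_im,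
    Complex.ofReal_im, coe_re, coe_im]
  field_simp
  nlinarith

theorem vol_gl (g : GL (Fin 2) ℝ) (F : Set ℍ) :
    volume ((fun z => glHom g z) '' F) = volume F := by
  have := measure_smul (μ := (volume : Measure ℍ)) g F
  rw [← this]
  rfl

/-! ### The triangle -/

/-- the abscissa of the vertex on the unit circle -/
noncomputable def x1 : ℝ := qq / (2 * kap)

theorem x1_pos : 0 < x1 := by
  have := qq_pos
  have := kap_pos
  unfold x1
  positivity

theorem kap_x1 : 2 * kap * x1 = qq := by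
  have := kap_pos
  unfold x1
  field_simp

theorem x1_sq : x1 ^ 2 = √2 - 1 := by
  have h1 := kap_x1
  have h2 := kap_sq
  have h3 := qq_sq
  have h4 := sqrt_two_sq
  have h5 : (2 * kap * x1) ^ 2 = √2 := by rw [h1, h3]
  have h6 : (2 + √2) * x1 ^ 2 = √2 := by
    have : (2 * kap * x1) ^ 2 = 4 * kap ^ 2 * x1 ^ 2 := by ring
    rw [this, h2] at h5
    linarith
  have h7 : 0 < 2 + √2 := by positivity
  have h8 : (2 + √2) * (√2 - 1) = √2 := by nlinarith
  exact mul_left_cancel₀ h7.ne' (h6.trans h8.symm)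

theorem sqrt_two_lt : √2 < (3 / 2 : ℝ) := by
  rw [Real.sqrt_lt' (by norm_num)]; norm_num

theorem lt_sqrt_two' : (7 / 5 : ℝ) < √2 := by
  rw [Real.lt_sqrt (by norm_num)]; norm_num

theorem x1_lt : x1 < √2 / 2 := by
  have h := x1_sq
  have h1 := sqrt_two_lt
  have h2 := sqrt_two_sq
  have h3 : (0 : ℝ) < √2 := by positivity
  by_contra hc
  rw [not_lt] at hc
  nlinarith [x1_pos]

theorem x1_lt_one : x1 < 1 := by
  have := x1_lt
  have := sqrt_two_lt
  linarith

theorem mem_tri_le {z : ℍ} (hz : z ∈ tri) : z.re ≤ x1 := by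
  obtain ⟨h0, h1, h2⟩ := hz
  have hd := del_pos
  have hk := kap_pos
  have h3 := kap_x1
  have h4 : alp - del = qq := by unfold alp del; ring
  have h5 : 2 * kap * z.re ≤ 2 * kap * x1 := by nlinarith
  exact le_of_mul_le_mul_left h5 (by positivity)

/-- lower arc -/
noncomputable def lo (x : ℝ) : ℝ := √(1 - x ^ 2)

/-- upper arc -/
noncomputable def up (x : ℝ) : ℝ := √(1 - (del * x + kap) ^ 2) / del

theorem lo_pos {x : ℝ} (h0 : 0 ≤ x) (h1 : x ≤ x1) : 0 < lo x :=
  Real.sqrt_pos.2 (by nlinarith [x1_lt_one])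

theorem up_arg {x : ℝ} (h1 : x ≤ x1) :
    del ^ 2 * (1 - x ^ 2) ≤ 1 - (del * x + kap) ^ 2 := by
  have hd := del_pos
  have hk := kap_pos
  have h2 := kap_alp_del
  have h3 := kap_x1
  have h4 : alp - del = qq := by unfold alp del; ring
  have h5 : 2 * kap * x ≤ qq := by
    rw [← h3]
    exact mul_le_mul_of_nonneg_left h1 (by positivity)
  have h6 : 0 ≤ del * (alp - del - 2 * kap * x) := mul_nonneg hd.le (by linarith)
  nlinarith

theorem lo_le_up {x : ℝ} (h0 : 0 ≤ x) (h1 : x ≤ x1) : lo x ≤ up x := by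
  have hd := del_pos
  unfold lo up
  rw [le_div_iff₀ hd, mul_comm]
  have : del * √(1 - x ^ 2) = √(del ^ 2 * (1 - x ^ 2)) := by
    rw [Real.sqrt_mul (by positivity), Real.sqrt_sq hd.le]
  rw [this]
  exact Real.sqrt_le_sqrt (up_arg h1)

theorem arg_lt_one {x : ℝ} (h0 : 0 ≤ x) (h1 : x ≤ x1) : del * x + kap < 1 := by
  have h2 := up_arg h1
  have hd := del_pos
  have hk := kap_pos
  have h3 : 0 < del ^ 2 * (1 - x ^ 2) := by
    have := x1_lt_one
    have : 0 < 1 - x ^ 2 := by nlinarith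
    positivity
  have h4 : 0 ≤ del * x := mul_nonneg hd.le h0
  nlinarith

theorem mem_tri_iff {x y : ℝ} (hy : 0 < y) :
    (0 ≤ x ∧ 1 ≤ x ^ 2 + y ^ 2 ∧ 0 ≤ alp - del * (x ^ 2 + y ^ 2) - 2 * kap * x) ↔
      (x ∈ Icc 0 x1 ∧ y ∈ Icc (lo x) (up x)) := by
  have hd := del_pos
  have hk := kap_pos
  have h2 := kap_alp_del
  constructor
  · rintro ⟨h0, h1, h3⟩
    have hx : x ≤ x1 := mem_tri_le (z := ⟨⟨x, y⟩, hy⟩) ⟨h0, h1, h3⟩
    refine ⟨⟨h0, hx⟩, ?_, ?_⟩
    · unfold lo
      rw [Real.sqrt_le_left hy.le]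
      linarith
    · unfold up
      rw [le_div_iff₀ hd]
      apply Real.le_sqrt_of_sq_le
      nlinarith [mul_nonneg hd.le h3]
  · rintro ⟨⟨h0, h1⟩, h3, h4⟩
    refine ⟨h0, ?_, ?_⟩
    · unfold lo at h3
      rw [Real.sqrt_le_left hy.le] at h3
      linarith
    · unfold up at h4
      rw [le_div_iff₀ hd] at h4
      have h5 : 0 ≤ 1 - (del * x + kap) ^ 2 := by
        refine le_trans ?_ (up_arg h1)
        have := x1_lt_one
        have : 0 ≤ 1 - x ^ 2 := by nlinarith
        positivity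
      have h6 : (y * del) ^ 2 ≤ 1 - (del * x + kap) ^ 2 := by
        have := pow_le_pow_left₀ (by positivity) h4 2
        rwa [Real.sq_sqrt h5] at this
      have h7 : 0 ≤ del * (alp - del * (x ^ 2 + y ^ 2) - 2 * kap * x) := by nlinarith
      exact nonneg_of_mul_nonneg_right h7 hd

/-! ### The angle sum -/

theorem arcsin_kap : Real.arcsin kap = 3 * Real.pi / 8 := by
  have h : kap = Real.sin (3 * Real.pi / 8) := by
    unfold kap
    rw [← Real.sin_pi_div_two_sub]
    congr 1
    ring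
  rw [h, Real.arcsin_sin] <;> linarith [Real.pi_pos]

theorem arcsin_x1 : Real.arcsin (del * x1 + kap) = Real.arcsin x1 + Real.pi / 4 := by
  have hk := kap_pos
  have hx := x1_pos
  have h1 : Real.arcsin x1 < Real.pi / 4 := by
    rw [Real.arcsin_lt_iff_lt_sin' ⟨by linarith [Real.pi_pos], by linarith [Real.pi_pos]⟩,
      Real.sin_pi_div_four]
    exact x1_lt
  have h2 : 0 ≤ Real.arcsin x1 := Real.arcsin_nonneg.2 hx.le
  have h3 : Real.sin (Real.arcsin x1 + Real.pi / 4) = del * x1 + kap := by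
    rw [Real.sin_add, Real.sin_arcsin (by linarith) x1_lt_one.le, Real.cos_arcsin,
      Real.cos_pi_div_four, Real.sin_pi_div_four]
    have h4 : 2 * kap * √(1 - x1 ^ 2) = √2 := by
      have e : 2 * kap * √(1 - x1 ^ 2) = √((2 * kap) ^ 2 * (1 - x1 ^ 2)) := by
        rw [Real.sqrt_mul (by positivity), Real.sqrt_sq (by positivity)]
      rw [e]
      congr 1
      rw [x1_sq]
      have := kap_sq
      have := sqrt_two_sq
      nlinarith
    have h5 : 2 * kap * (x1 * (√2 / 2) + √(1 - x1 ^ 2) * (√2 / 2)) =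
        2 * kap * (del * x1 + kap) := by
      have e1 : 2 * kap * (x1 * (√2 / 2) + √(1 - x1 ^ 2) * (√2 / 2)) =
          (2 * kap * x1) * (√2 / 2) + (2 * kap * √(1 - x1 ^ 2)) * (√2 / 2) := by ring
      have e2 : 2 * kap * (del * x1 + kap) = del * (2 * kap * x1) + 2 * kap ^ 2 := by ring
      rw [e1, e2, h4, kap_x1, kap_sq]
      have := sqrt_two_sq
      have := qq_sq
      unfold del
      nlinarith
    exact mul_left_cancel₀ (by positivity) h5
  rw [← h3, Real.arcsin_sin] <;> linarith [Real.pi_pos]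

theorem lint_outer : ∫⁻ x in Icc 0 x1, ENNReal.ofReal (1 / lo x - 1 / up x) =
    ENNReal.ofReal (Real.pi / 8) := by
  have hd := del_pos
  have hk := kap_pos
  rw [lint_of_deriv (f := fun x => 1 / lo x - 1 / up x)
    (F := fun x => Real.arcsin x - Real.arcsin (del * x + kap)) x1_pos.le]
  · congr 1
    rw [arcsin_x1]
    simp only [Real.arcsin_zero, mul_zero, zero_add, arcsin_kap]
    ring
  · intro x hx
    have h1 : HasDerivAt Real.arcsin (1 / √(1 - x ^ 2)) x := by
      refine Real.hasDerivAt_arcsin (by linarith [hx.1]) (ne_of_lt ?_)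
      exact lt_of_le_of_lt hx.2 x1_lt_one
    have h2 : HasDerivAt (fun x : ℝ => del * x + kap) del x := by
      simpa using ((hasDerivAt_id x).const_mul del).add_const kap
    have h3 : HasDerivAt (fun x : ℝ => Real.arcsin (del * x + kap))
        (1 / √(1 - (del * x + kap) ^ 2) * del) x := by
      refine (Real.hasDerivAt_arcsin ?_ (ne_of_lt (arg_lt_one hx.1 hx.2))).comp x h2
      have := mul_nonneg hd.le hx.1
      linarith
    have h4 : HasDerivAt (fun x : ℝ => Real.arcsin x - Real.arcsin (del * x + kap))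
        (1 / √(1 - x ^ 2) - 1 / √(1 - (del * x + kap) ^ 2) * del) x := h1.sub h3
    refine h4.congr_deriv ?_
    unfold lo up
    rw [one_div_div]
    ring
  · refine ContinuousOn.sub ?_ ?_
    · refine ContinuousOn.div continuousOn_const ?_ fun x hx => (lo_pos hx.1 hx.2).ne'
      unfold lo
      fun_prop
    · refine ContinuousOn.div continuousOn_const ?_ fun x hx =>
        (lt_of_lt_of_le (lo_pos hx.1 hx.2) (lo_le_up hx.1 hx.2)).ne'
      unfold up
      fun_prop
  · intro x hx
    rw [sub_nonneg]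
    exact one_div_le_one_div_of_le (lo_pos hx.1 hx.2) (lo_le_up hx.1 hx.2)

/-- The triangle in real coordinates. -/
def triR : Set (ℝ × ℝ) := {p | p.1 ∈ Icc 0 x1 ∧ p.2 ∈ Icc (lo p.1) (up p.1)}

theorem measurable_lo : Measurable lo := by
  unfold lo
  fun_prop

theorem measurable_up : Measurable up := by
  unfold up
  fun_prop

theorem measurableSet_triR : MeasurableSet triR := by
  have h1 : MeasurableSet {p : ℝ × ℝ | p.1 ∈ Icc 0 x1} := measurable_fst measurableSet_Icc
  have h2 : MeasurableSet {p : ℝ × ℝ | lo p.1 ≤ p.2} :=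
    measurableSet_le (measurable_lo.comp measurable_fst) measurable_snd
  have h3 : MeasurableSet {p : ℝ × ℝ | p.2 ≤ up p.1} :=
    measurableSet_le measurable_snd (measurable_up.comp measurable_fst)
  exact h1.inter (h2.inter h3)

theorem image_tri : UpperHalfPlane.coe '' tri = Complex.measurableEquivRealProd ⁻¹' triR := by
  ext z
  constructor
  · rintro ⟨w, hw, rfl⟩
    exact (mem_tri_iff w.im_pos).1 hw
  · intro hz
    have h1 : z.re ∈ Icc 0 x1 ∧ z.im ∈ Icc (lo z.re) (up z.re) := hz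
    have hy : 0 < z.im := lt_of_lt_of_le (lo_pos h1.1.1 h1.1.2) h1.2.1
    exact ⟨⟨z, hy⟩, (mem_tri_iff hy).2 h1, rfl⟩

theorem vol_tri : volume tri = ENNReal.ofReal (Real.pi / 8) := by
  have hg : Measurable (fun p : ℝ × ℝ => ENNReal.ofReal ((p.2 ^ 2)⁻¹)) := by fun_prop
  have h1 : volume tri = ∫⁻ p in triR, ENNReal.ofReal ((p.2 ^ 2)⁻¹) := by
    rw [volume_eq_lintegral, image_tri,
      ← Complex.volume_preserving_equiv_real_prod.setLIntegral_comp_preimage measurableSet_triR hg]
    refine setLIntegral_congr_fun (Complex.measurableEquivRealProd.measurable measurableSet_triR)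
      fun z _ => ?_
    simp only [Complex.measurableEquivRealProd_apply]
    rw [← ENNReal.ofReal_coe_nnreal]
    congr 1
    simp
  rw [h1, ← lintegral_indicator measurableSet_triR, Measure.volume_eq_prod,
    lintegral_prod _ (hg.indicator measurableSet_triR).aemeasurable, ← lint_outer,
    ← lintegral_indicator measurableSet_Icc]
  refine lintegral_congr fun x => ?_
  by_cases hx : x ∈ Icc 0 x1
  · rw [indicator_of_mem hx, ← lint_inv_sq (lo_pos hx.1 hx.2) (lo_le_up hx.1 hx.2),
      ← lintegral_indicator measurableSet_Icc]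
    refine lintegral_congr fun y => ?_
    by_cases hy : y ∈ Icc (lo x) (up x)
    · rw [indicator_of_mem hy, indicator_of_mem (show (x, y) ∈ triR from ⟨hx, hy⟩)]
    · rw [indicator_of_notMem hy, indicator_of_notMem (fun h : (x, y) ∈ triR => hy h.2)]
  · rw [indicator_of_notMem hx]
    simp only [indicator_of_notMem (fun h : (x, _) ∈ triR => hx h.1), lintegral_zero]

/-! ### Compactness -/

theorem isCompact_tri : IsCompact tri := by
  rw [isOpenEmbedding_coe.isInducing.isCompact_iff]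
  have hd := del_pos
  have hk := kap_pos
  have e : UpperHalfPlane.coe '' tri = {z : ℂ | 0 ≤ z.re ∧ 1 ≤ z.re ^ 2 + z.im ^ 2 ∧
      0 ≤ alp - del * (z.re ^ 2 + z.im ^ 2) - 2 * kap * z.re ∧ 1 / 2 ≤ z.im} := by
    ext z
    constructor
    · rintro ⟨w, hw, rfl⟩
      refine ⟨hw.1, hw.2.1, hw.2.2, ?_⟩
      have h1 := mem_tri_le hw
      have h2 := x1_sq
      have h3 := sqrt_two_lt
      have h4 := hw.1
      have h5 := hw.2.1
      have h6 := w.im_pos
      simp only [coe_im]
      nlinarith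
    · rintro ⟨h1, h2, h3, h4⟩
      exact ⟨⟨z, by linarith⟩, ⟨h1, h2, h3⟩, rfl⟩
  rw [e]
  refine Metric.isCompact_of_isClosed_isBounded ?_ ?_
  · refine IsClosed.and ?_ (IsClosed.and ?_ (IsClosed.and ?_ ?_))
    · exact isClosed_le (by fun_prop) (by fun_prop)
    · exact isClosed_le (by fun_prop) (by fun_prop)
    · exact isClosed_le (by fun_prop) (by fun_prop)
    · exact isClosed_le (by fun_prop) (by fun_prop)
  · refine (Metric.isBounded_closedBall (x := (0 : ℂ)) (r := √(alp / del))).subset ?_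
    rintro z ⟨h1, h2, h3, h4⟩
    rw [mem_closedBall_zero_iff, Complex.norm_def]
    apply Real.sqrt_le_sqrt
    rw [Complex.normSq_apply, le_div_iff₀ hd]
    nlinarith [mul_nonneg hk.le h1]

theorem measurableSet_tri : MeasurableSet tri := isCompact_tri.isClosed.measurableSet

end Iso180
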