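import Pool.Agent.Work.MP_180c68_gt.Defs

/-!
MP_180c68_gt: the action of `GL(2, ℝ)` by isometries; the three reflections of the triangle
`(2, 4, 8)`.
-/

set_option autoImplicit false

open UpperHalfPlane MeasureTheory
open scoped MatrixGroups ContDiff ComplexConjugate

namespace Iso180

theorem coe_gl_dist (g : GL (Fin 2) ℝ) (z w : ℍ) :
    dist ((g • z : ℍ) : ℂ) ((g • w : ℍ) : ℂ) =
      |g.det.val| * dist (z : ℂ) w / (‖denom g z‖ * ‖denom g w‖) := by
  have h1 : num g z / denom g z - num g w / denom g w =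
      (g.det.val : ℂ) * ((z : ℂ) - w) / (denom g z * denom g w) := by
    have hz := denom_ne_zero g z
    have hw := denom_ne_zero g w
    rw [div_sub_div _ _ hz hw]
    congr 1
    simp only [num, denom, Matrix.GeneralLinearGroup.val_det_apply, Matrix.det_fin_two]
    push_cast
    ring
  rw [coe_smul, coe_smul, Complex.dist_eq, ← map_sub, norm_σ, h1, norm_div, norm_mul, norm_mul,
    Complex.dist_eq, Complex.norm_real, Real.norm_eq_abs]

theorem dist_gl (g : GL (Fin 2) ℝ) (z w : ℍ) : dist (g • z) (g • w) = dist z w := by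
  have h : Real.cosh (dist (g • z) (g • w)) = Real.cosh (dist z w) := by
    rw [cosh_dist, cosh_dist, coe_gl_dist, im_smul_eq_div_normSq, im_smul_eq_div_normSq,
      Complex.normSq_eq_norm_sq, Complex.normSq_eq_norm_sq]
    have hz : ‖denom g z‖ ≠ 0 := norm_ne_zero_iff.2 (denom_ne_zero g z)
    have hw : ‖denom g w‖ ≠ 0 := norm_ne_zero_iff.2 (denom_ne_zero g w)
    have hd : |g.det.val| ≠ 0 := abs_ne_zero.2 g.det_ne_zero
    have := z.im_pos.ne'
    have := w.im_pos.ne'
    field_simp
  have := congrArg Real.arcosh h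
  rwa [Real.arcosh_cosh dist_nonneg, Real.arcosh_cosh dist_nonneg] at this

instance instIsometricGL : IsIsometricSMul (GL (Fin 2) ℝ) ℍ where
  isometry_smul g := by
    refine Isometry.of_dist_eq (fun z w => ?_)
    exact dist_gl g z w

/-- The homomorphism from `GL(2, ℝ)` to the isometry group. -/
noncomputable def glHom : GL (Fin 2) ℝ →* (ℍ ≃ᵢ ℍ) where
  toFun g := IsometryEquiv.constSMul g
  map_one' := by ext1 z; exact one_smul (GL (Fin 2) ℝ) z
  map_mul' g h := by
    ext1 z
    exact mul_smul g h z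

@[simp] theorem glHom_apply (g : GL (Fin 2) ℝ) (z : ℍ) : glHom g z = g • z := rfl

@[simp] theorem slHom_apply (g : SL(2, ℝ)) (z : ℍ) : slHom g z = g • z := rfl

/-! ### The triangle `(2, 4, 8)` -/

/-- `cos (π / 8)` -/
noncomputable def kap : ℝ := Real.cos (Real.pi / 8)

/-- the fourth root of two -/
noncomputable def qq : ℝ := √√2

/-- `(√2 + 2^(1/4)) / 2` -/
noncomputable def alp : ℝ := (√2 + qq) / 2

/-- `(√2 - 2^(1/4)) / 2` -/
noncomputable def del : ℝ := (√2 - qq) / 2

theorem kap_sq : kap ^ 2 = (2 + √2) / 4 := by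
  rw [kap, Real.cos_pi_div_eight]
  rw [div_pow, Real.sq_sqrt (by positivity)]
  norm_num

theorem kap_pos : 0 < kap :=
  Real.cos_pos_of_mem_Ioo ⟨by linarith [Real.pi_pos], by linarith [Real.pi_pos]⟩

theorem qq_sq : qq ^ 2 = √2 := Real.sq_sqrt (Real.sqrt_nonneg 2)

theorem sqrt_two_sq : √2 ^ 2 = (2 : ℝ) := Real.sq_sqrt (by norm_num)

theorem qq_pos : 0 < qq := Real.sqrt_pos.2 (Real.sqrt_pos.2 (by norm_num))

theorem one_lt_sqrt_two : (1 : ℝ) < √2 := by
  rw [Real.lt_sqrt (by norm_num)]; norm_num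

theorem qq_lt : qq < √2 := by
  have h1 := qq_sq
  have h2 := sqrt_two_sq
  have h3 := one_lt_sqrt_two
  nlinarith [qq_pos]

theorem one_lt_qq : 1 < qq := by
  have h1 := qq_sq
  have h3 := one_lt_sqrt_two
  nlinarith [qq_pos]

theorem del_pos : 0 < del := by unfold del; linarith [qq_lt]

theorem alp_pos : 0 < alp := by unfold alp; linarith [qq_pos, one_lt_sqrt_two]

theorem alp_mul_del : alp * del = (2 - √2) / 4 := by
  have h1 := qq_sq
  have h2 := sqrt_two_sq
  unfold alp del
  nlinarith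

theorem kap_alp_del : kap ^ 2 + alp * del = 1 := by
  rw [kap_sq, alp_mul_del]; ring

/-- the matrix of the reflection in the imaginary axis -/
noncomputable def RA : GL (Fin 2) ℝ := Matrix.GeneralLinearGroup.mkOfDetNeZero !![-1, 0; 0, 1]
  (by simp)

/-- the matrix of the reflection in the unit circle -/
noncomputable def RB : GL (Fin 2) ℝ := Matrix.GeneralLinearGroup.mkOfDetNeZero !![0, 1; 1, 0]
  (by simp)

/-- the matrix of the reflection in the third side -/
noncomputable def RC : GL (Fin 2) ℝ :=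
  Matrix.GeneralLinearGroup.mkOfDetNeZero !![kap, -alp; -del, -kap] (by
    rw [Matrix.det_fin_two_of]
    have := kap_alp_del
    nlinarith)

/-- reflection in the imaginary axis -/
noncomputable def ra : ℍ ≃ᵢ ℍ := glHom RA

/-- reflection in the unit circle -/
noncomputable def rb : ℍ ≃ᵢ ℍ := glHom RB

/-- reflection in the third side -/
noncomputable def rc : ℍ ≃ᵢ ℍ := glHom RC

/-- The closed triangle with angles `π/2, π/4, π/8`. -/
def tri : Set ℍ := {z | 0 ≤ z.re ∧ 1 ≤ z.re ^ 2 + z.im ^ 2 ∧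
  0 ≤ alp - del * (z.re ^ 2 + z.im ^ 2) - 2 * kap * z.re}

/-- The full reflection group of the triangle. -/
noncomputable def Gam0 : Subgroup (ℍ ≃ᵢ ℍ) := Subgroup.closure {ra, rb, rc}

end Iso180
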