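import Mathlib

/-!
MP_180c68_gt: isospectral compact arithmetic hyperbolic 2-orbifolds. Definitions.
The hyperbolic plane is `UpperHalfPlane`, its isometry group is `ℍ ≃ᵢ ℍ`, its area measure is
Mathlib's `volume` (density `1 / y ^ 2`).
-/

set_option autoImplicit false

open UpperHalfPlane MeasureTheory
open scoped MatrixGroups ContDiff

namespace Iso180

/-- `Γ` acts properly discontinuously on the hyperbolic plane (equivalently: it is discrete). -/
def Discrete (Γ : Subgroup (ℍ ≃ᵢ ℍ)) : Prop :=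
  ∀ K : Set ℍ, IsCompact K → {g : ℍ ≃ᵢ ℍ | g ∈ Γ ∧ ((fun z => g z) '' K ∩ K).Nonempty}.Finite

/-- `Γ` is cocompact. -/
def Cocompact (Γ : Subgroup (ℍ ≃ᵢ ℍ)) : Prop :=
  ∃ K : Set ℍ, IsCompact K ∧ ∀ z : ℍ, ∃ g ∈ Γ, g z ∈ K

/-- `Γ` has a measurable fundamental domain of hyperbolic area `A`. -/
def HasArea (Γ : Subgroup (ℍ ≃ᵢ ℍ)) (A : ℝ) : Prop :=
  ∃ F : Set ℍ, MeasurableSet F ∧ (∀ᵐ z : ℍ, ∃ g ∈ Γ, g z ∈ F) ∧
    (∀ g ∈ Γ, g ≠ 1 → volume ((fun z => g z) '' F ∩ F) = 0) ∧ volume F = ENNReal.ofReal A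

/-- The Laplace-Beltrami operator `- y ^ 2 (∂²/∂x² + ∂²/∂y²)` of the hyperbolic plane. -/
noncomputable def lapB (f : ℍ → ℝ) (z : ℍ) : ℝ :=
  -(z.im ^ 2) * Laplacian.laplacian (fun w : ℂ => f (ofComplex w)) (z : ℂ)

/-- `f` is smooth on the hyperbolic plane. -/
def Smooth (f : ℍ → ℝ) : Prop :=
  ContDiffOn ℝ ∞ (fun w : ℂ => f (ofComplex w)) {w : ℂ | 0 < w.im}

/-- The eigenspace of the Laplace-Beltrami operator of the orbifold `Γ \ ℍ` for the eigenvalue
`μ`: the smooth `Γ`-invariant functions with `Δ f = μ f`. -/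
noncomputable def eigenspace (Γ : Subgroup (ℍ ≃ᵢ ℍ)) (μ : ℝ) : Submodule ℝ (ℍ → ℝ) where
  carrier := {f | Smooth f ∧ (∀ g ∈ Γ, ∀ z, f (g z) = f z) ∧ ∀ z, lapB f z = μ * f z}
  zero_mem' := by
    refine ⟨contDiffOn_const, fun _ _ _ => rfl, fun z => ?_⟩
    simp [lapB]
  add_mem' := by
    rintro f h ⟨f1, f2, f3⟩ ⟨h1, h2, h3⟩
    refine ⟨f1.add h1, fun g hg z => by simp [f2 g hg z, h2 g hg z], fun z => ?_⟩
    have ho : {w : ℂ | 0 < w.im} ∈ nhds (z : ℂ) :=
      (isOpen_lt continuous_const Complex.continuous_im).mem_nhds z.im_pos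
    have h2le : (2 : WithTop ℕ∞) ≤ ∞ := WithTop.coe_le_coe.2 (le_top : (2 : ℕ∞) ≤ ⊤)
    have e1 := (f1.contDiffAt ho).of_le h2le
    have e2 := (h1.contDiffAt ho).of_le h2le
    have := e1.laplacian_add e2
    have h4 : lapB (f + h) z = lapB f z + lapB h z := by
      unfold lapB
      rw [← mul_add, ← this]
      rfl
    rw [h4, f3, h3]
    simp only [Pi.add_apply]
    ring
  smul_mem' := by
    rintro c f ⟨f1, f2, f3⟩
    refine ⟨contDiffOn_const.smul f1, fun g hg z => by simp [f2 g hg z], fun z => ?_⟩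
    have h4 : lapB (c • f) z = c * lapB f z := by
      unfold lapB
      have ho : {w : ℂ | 0 < w.im} ∈ nhds (z : ℂ) :=
        (isOpen_lt continuous_const Complex.continuous_im).mem_nhds z.im_pos
      have h2le : (2 : WithTop ℕ∞) ≤ ∞ := WithTop.coe_le_coe.2 (le_top : (2 : ℕ∞) ≤ ⊤)
      have e1 := (f1.contDiffAt ho).of_le h2le
      have : (fun w : ℂ => (c • f) (ofComplex w)) = c • fun w : ℂ => f (ofComplex w) := rfl
      rw [this, InnerProductSpace.laplacian_smul c e1]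
      simp only [Pi.smul_apply, smul_eq_mul]
      ring
    rw [h4, f3]
    simp only [Pi.smul_apply, smul_eq_mul]
    ring

/-- The orbifolds `Γ₁ \ ℍ` and `Γ₂ \ ℍ` are isospectral: every real number has the same
multiplicity as an eigenvalue. -/
def Isospectral (Γ₁ Γ₂ : Subgroup (ℍ ≃ᵢ ℍ)) : Prop :=
  ∀ μ : ℝ, Module.rank ℝ (eigenspace Γ₁ μ) = Module.rank ℝ (eigenspace Γ₂ μ)

/-- The orbifolds `Γ₁ \ ℍ` and `Γ₂ \ ℍ` are isometric: the groups are conjugate in the
isometry group of the hyperbolic plane. -/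
def Isometric (Γ₁ Γ₂ : Subgroup (ℍ ≃ᵢ ℍ)) : Prop :=
  ∃ c : ℍ ≃ᵢ ℍ, Γ₂ = Γ₁.map (MulAut.conj c).toMonoidHom

/-- The homomorphism from `SL(2, ℝ)` to the isometry group; its range is the group of
orientation preserving isometries. -/
noncomputable def slHom : SL(2, ℝ) →* (ℍ ≃ᵢ ℍ) where
  toFun g := IsometryEquiv.constSMul g
  map_one' := by ext z; simp
  map_mul' g h := by
    ext1 z
    exact mul_smul g h z

/-- The group of the units of reduced norm one of a subring `O` of a quaternion algebra. -/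
def normOne {K : Type} [Field K] {a b : K} (O : Subring (QuaternionAlgebra K a 0 b)) :
    Subgroup (QuaternionAlgebra K a 0 b)ˣ where
  carrier := {u | (u : QuaternionAlgebra K a 0 b) ∈ O ∧
    ((u⁻¹ : (QuaternionAlgebra K a 0 b)ˣ) : QuaternionAlgebra K a 0 b) ∈ O ∧
    (u : QuaternionAlgebra K a 0 b) * star (u : QuaternionAlgebra K a 0 b) = 1}
  one_mem' := ⟨by simp, by simp, by simp⟩
  mul_mem' := by
    rintro u v ⟨h1, h2, h3⟩ ⟨k1, k2, k3⟩
    refine ⟨by simpa using O.mul_mem h1 k1, by simpa using O.mul_mem k2 h2, ?_⟩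
    rw [Units.val_mul, star_mul, mul_assoc, ← mul_assoc (v : QuaternionAlgebra K a 0 b), k3,
      one_mul, h3]
  inv_mem' := by
    rintro u ⟨h1, h2, h3⟩
    refine ⟨h2, by simpa using h1, ?_⟩
    have e1 : star (u : QuaternionAlgebra K a 0 b) =
        ((u⁻¹ : (QuaternionAlgebra K a 0 b)ˣ) : QuaternionAlgebra K a 0 b) := by
      rw [← one_mul (star _), ← u.inv_mul, mul_assoc, h3, mul_one]
    have e2 : star ((u⁻¹ : (QuaternionAlgebra K a 0 b)ˣ) : QuaternionAlgebra K a 0 b) =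
        (u : QuaternionAlgebra K a 0 b) := by rw [← e1, star_star]
    rw [e2, u.inv_mul]

/-- The image in the isometry group of the norm-one unit group of `O` under a homomorphism `ρ`
to the real matrices. -/
noncomputable def imageO {K : Type} [Field K] {a b : K}
    (ρ : QuaternionAlgebra K a 0 b →+* Matrix (Fin 2) (Fin 2) ℝ)
    (O : Subring (QuaternionAlgebra K a 0 b)) : Subgroup (ℍ ≃ᵢ ℍ) :=
  (((normOne O).map (Units.map (ρ : QuaternionAlgebra K a 0 b →* _))).comap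
    Matrix.SpecialLinearGroup.toGL).map slHom

/-- `Γ` is arithmetic: there are a totally real number field `K`, a quaternion algebra
`(a, b)` over `K` which is split at the real place `v` (by `ρ`) and ramified at all other real
places, an order `O` in it, such that up to conjugation the orientation preserving part of `Γ`
is commensurable with the image of the group of units of norm one of `O`. -/
def Arithmetic (Γ : Subgroup (ℍ ≃ᵢ ℍ)) : Prop :=
  ∃ (K : Type) (_ : Field K) (_ : NumberField K) (_ : NumberField.IsTotallyReal K) (a b : K)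
    (v : K →+* ℝ) (ρ : QuaternionAlgebra K a 0 b →+* Matrix (Fin 2) (Fin 2) ℝ)
    (O : Subring (QuaternionAlgebra K a 0 b)) (c : ℍ ≃ᵢ ℍ),
    a ≠ 0 ∧ b ≠ 0 ∧
    (∀ k : K, ρ (algebraMap K _ k) = v k • (1 : Matrix (Fin 2) (Fin 2) ℝ)) ∧
    (∀ v' : K →+* ℝ, v' ≠ v → v' a < 0 ∧ v' b < 0) ∧
    (∀ k : NumberField.RingOfIntegers K, algebraMap K (QuaternionAlgebra K a 0 b) k ∈ O) ∧
    O.toAddSubgroup.FG ∧ Submodule.span K (O : Set (QuaternionAlgebra K a 0 b)) = ⊤ ∧
    Subgroup.Commensurable (Γ ⊓ slHom.range) ((imageO ρ O).map (MulAut.conj c).toMonoidHom)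

end Iso180
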