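import Pool.Agent.Work.MP_180c68_gt.Tess
import Pool.Agent.Work.MP_180c68_gt.Area

/-!
MP_180c68_gt: area and cocompactness of the finite index subgroups given by permutation actions.
-/

set_option autoImplicit false

open UpperHalfPlane MeasureTheory Metric
open scoped MatrixGroups ContDiff ComplexConjugate
open Pool.Agent.Work.MP_de2d29_al

namespace Iso180

instance countable_W : Countable W := by
  rw [← Set.countable_univ_iff]
  have : (Set.univ : Set W) ⊆ ⋃ n : ℕ, {w : W | dist (psi w p0) p0 ≤ n} := fun w _ => by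
    obtain ⟨n, hn⟩ := exists_nat_ge (dist (psi w p0) p0)
    exact Set.mem_iUnion.2 ⟨n, hn⟩
  exact (Set.countable_iUnion fun n : ℕ => (finite_ball (n : ℝ)).countable).mono this

theorem vol_psi (w : W) (F : Set ℍ) : volume ((fun z => psi w z) '' F) = volume F := by
  obtain ⟨g, hg⟩ := psi_gl w
  have : (fun z => psi w z) '' F = (fun z => glHom g z) '' F := by
    congr 1
    funext z
    rw [hg, glHom_apply]
  rw [this, vol_gl]

theorem psi_inv_apply (w : W) (z : ℍ) : psi w⁻¹ (psi w z) = z := by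
  rw [← psi_mul, inv_mul_cancel, psi_one]

theorem psi_apply_inv (w : W) (z : ℍ) : psi w (psi w⁻¹ z) = z := by
  rw [← psi_mul, mul_inv_cancel, psi_one]

theorem preimage_psi (w : W) (S : Set ℍ) :
    (fun z => psi w z) ⁻¹' S = (fun z => psi w⁻¹ z) '' S := by
  ext z
  constructor
  · intro h
    exact ⟨psi w z, h, psi_inv_apply w z⟩
  · rintro ⟨y, hy, rfl⟩
    show psi w (psi w⁻¹ y) ∈ S
    rw [psi_apply_inv]
    exact hy

theorem vol_preimage_psi (w : W) (S : Set ℍ) : volume ((fun z => psi w z) ⁻¹' S) = volume S := by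
  rw [preimage_psi, vol_psi]

theorem vol_bdry : volume (tri \ triO) = 0 := by
  refine measure_mono_null ?_ (measure_union_null vol_side_a
    (measure_union_null vol_side_b vol_side_c))
  rintro z ⟨⟨h1, h2, h3⟩, h⟩
  rw [mem_triO] at h
  by_cases e1 : z.re = 0
  · exact Or.inl e1
  by_cases e2 : z.re ^ 2 + z.im ^ 2 = 1
  · exact Or.inr (Or.inl e2)
  right; right
  show alp - del * (z.re ^ 2 + z.im ^ 2) - 2 * kap * z.re = 0
  by_contra e3
  exact h ⟨lt_of_le_of_ne h1 (Ne.symm e1), lt_of_le_of_ne h2 (Ne.symm e2),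
    lt_of_le_of_ne h3 (Ne.symm e3)⟩

theorem vol_triO : volume triO = ENNReal.ofReal (Real.pi / 8) := by
  rw [← vol_tri]
  refine le_antisymm (measure_mono triO_subset) ?_
  have : tri ⊆ triO ∪ (tri \ triO) := fun z hz => by
    by_cases h : z ∈ triO
    · exact Or.inl h
    · exact Or.inr ⟨hz, h⟩
  refine (measure_mono this).trans ((measure_union_le _ _).trans ?_)
  rw [vol_bdry, add_zero]

theorem continuous_psi (w : W) : Continuous fun z : ℍ => psi w z := (psi w).continuous

variable {n : ℕ} (X : W →* Equiv.Perm (Fin n)) (x0 : Fin n)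

/-- the subgroup of the isometry group defined by a permutation action and a point -/
noncomputable def stab : Subgroup (ℍ ≃ᵢ ℍ) :=
  ((MulAction.stabilizer (Equiv.Perm (Fin n)) x0).comap X).map psi

theorem mem_comap {h : W} :
    h ∈ (MulAction.stabilizer (Equiv.Perm (Fin n)) x0).comap X ↔ X h x0 = x0 := Iff.rfl

theorem cocompact_stab (hX : ∀ i, ∃ w, X w x0 = i) :
    Cocompact (((MulAction.stabilizer (Equiv.Perm (Fin n)) x0).comap X).map psi) := by
  choose w hw using hX
  refine ⟨⋃ i, (fun z => psi (w i)⁻¹ z) '' tri,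
    isCompact_iUnion fun i => isCompact_tri.image (continuous_psi _), fun z => ?_⟩
  obtain ⟨u, hu⟩ := exists_mem_tri z
  refine ⟨psi ((w (X u x0))⁻¹ * u), ⟨_, ?_, rfl⟩, Set.mem_iUnion.2 ⟨X u x0, psi u z, hu, ?_⟩⟩
  · show X ((w (X u x0))⁻¹ * u) x0 = x0
    rw [map_mul, map_inv, Equiv.Perm.mul_apply, Equiv.Perm.inv_eq_iff_eq, hw]
  · exact (psi_mul _ _ _).symm

theorem hasArea_stab (hX : ∀ i, ∃ w, X w x0 = i) :
    HasArea (((MulAction.stabilizer (Equiv.Perm (Fin n)) x0).comap X).map psi)
      (n * (Real.pi / 8)) := by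
  choose w hw using hX
  have hinj : Function.Injective w := fun i j h => by rw [← hw i, ← hw j, h]
  have hmeas : ∀ i, MeasurableSet ((fun z => psi (w i) z) ⁻¹' triO) := fun i =>
    (isOpen_triO.preimage (continuous_psi _)).measurableSet
  refine ⟨⋃ i, (fun z => psi (w i) z) ⁻¹' triO, MeasurableSet.iUnion hmeas, ?_, ?_, ?_⟩
  · -- cover
    have h0 : volume (⋃ u : W, (fun z => psi u z) ⁻¹' (tri \ triO)) = 0 :=
      measure_iUnion_null fun u => by rw [vol_preimage_psi, vol_bdry]
    rw [ae_iff]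
    refine measure_mono_null ?_ h0
    intro z hz
    obtain ⟨u, hu⟩ := exists_mem_tri z
    refine Set.mem_iUnion.2 ⟨u, hu, fun hu' => hz ?_⟩
    refine ⟨psi ((w (X u x0))⁻¹ * u), ⟨_, ?_, rfl⟩, Set.mem_iUnion.2 ⟨X u x0, ?_⟩⟩
    · show X ((w (X u x0))⁻¹ * u) x0 = x0
      rw [map_mul, map_inv, Equiv.Perm.mul_apply, Equiv.Perm.inv_eq_iff_eq, hw]
    · show psi (w (X u x0)) (psi ((w (X u x0))⁻¹ * u) z) ∈ triO
      rw [← psi_mul, mul_inv_cancel_left]
      exact hu'
  · -- no overlap
    rintro _ ⟨h, hh, rfl⟩ hne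
    have hh' : X h x0 = x0 := hh
    have : (fun z => psi h z) '' (⋃ i, (fun z => psi (w i) z) ⁻¹' triO) ∩
        (⋃ i, (fun z => psi (w i) z) ⁻¹' triO) = ∅ := by
      rw [Set.eq_empty_iff_forall_notMem]
      rintro _ ⟨⟨z, hz, rfl⟩, hz'⟩
      obtain ⟨i, hi⟩ := Set.mem_iUnion.1 hz
      obtain ⟨j, hj⟩ := Set.mem_iUnion.1 hz'
      have hi' : psi (w i) z ∈ triO := hi
      have hj' : psi (w j) (psi h z) ∈ triO := hj
      have h1 : psi (w j * h * (w i)⁻¹) (psi (w i) z) ∈ tri := by
        rw [← psi_mul, inv_mul_cancel_right, psi_mul]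
        exact triO_subset hj'
      have h2 := eq_one_of_mem_tri hi' h1
      have h3 : w j * h = w i := mul_inv_eq_one.1 h2
      have h4 : j = i := by
        have : X (w j * h) x0 = X (w i) x0 := by rw [h3]
        rwa [map_mul, Equiv.Perm.mul_apply, hh', hw, hw] at this
      rw [h4] at h3
      have h5 : h = 1 := mul_eq_left.1 h3
      exact hne (by rw [h5, map_one])
    rw [this, measure_empty]
  · -- area
    rw [measure_iUnion ?_ hmeas]
    · simp only [vol_preimage_psi, vol_triO, tsum_fintype, Finset.sum_const, Finset.card_univ,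
        Fintype.card_fin, nsmul_eq_mul]
      rw [ENNReal.ofReal_mul (Nat.cast_nonneg n), ENNReal.ofReal_natCast]
    · intro i j hij
      rw [Function.onFun, Set.disjoint_left]
      intro z hi hj
      have hi' : psi (w i) z ∈ triO := hi
      have hj' : psi (w j) z ∈ triO := hj
      have h1 : psi (w j * (w i)⁻¹) (psi (w i) z) ∈ tri := by
        rw [← psi_mul, inv_mul_cancel_right]
        exact triO_subset hj'
      have h2 := eq_one_of_mem_tri hi' h1
      exact hij (hinj (mul_inv_eq_one.1 h2).symm)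

end Iso180
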