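import Pool.Agent.Work.MP_180c68_gt.Area

/-!
MP_180c68_gt: the area of a discrete group does not depend on the fundamental domain.
-/

set_option autoImplicit false

open UpperHalfPlane MeasureTheory Metric
open scoped MatrixGroups ContDiff ComplexConjugate

namespace Iso180

theorem countable_of_discrete {G : Subgroup (ℍ ≃ᵢ ℍ)} (hG : Discrete G) : Countable G := by
  have h : ∀ n : ℕ, {g : G | dist ((g : ℍ ≃ᵢ ℍ) I) I ≤ n}.Countable := fun n => by
    have hf := hG (closedBall I n) (isCompact_closedBall _ _)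
    have hf' : ({g : G | dist ((g : ℍ ≃ᵢ ℍ) I) I ≤ n} : Set G).Finite := by
      refine Set.Finite.of_finite_image (f := Subtype.val) (hf.subset ?_)
        Subtype.val_injective.injOn
      rintro _ ⟨g, hg, rfl⟩
      exact ⟨g.2, _, ⟨I, mem_closedBall_self (Nat.cast_nonneg n), rfl⟩, hg⟩
    exact hf'.countable
  rw [← Set.countable_univ_iff]
  have : (Set.univ : Set G) ⊆ ⋃ n : ℕ, {g : G | dist ((g : ℍ ≃ᵢ ℍ) I) I ≤ n} := fun w _ => by
    obtain ⟨n, hn⟩ := exists_nat_ge (dist ((w : ℍ ≃ᵢ ℍ) I) I)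
    exact Set.mem_iUnion.2 ⟨n, hn⟩
  exact (Set.countable_iUnion h).mono this

/-- The area of a discrete group is well defined. -/
theorem HasArea.unique {G : Subgroup (ℍ ≃ᵢ ℍ)} (hG : Discrete G) (hg : G ≤ glHom.range)
    {A B : ℝ} (hA : HasArea G A) (hB : HasArea G B) : ENNReal.ofReal A = ENNReal.ofReal B := by
  have : Countable G := countable_of_discrete hG
  let act : MulAction G ℍ :=
    { smul := fun g z => (g : ℍ ≃ᵢ ℍ) z
      one_smul := fun _ => rfl
      mul_smul := fun _ _ _ => rfl }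
  have hact : ∀ (g : G) (z : ℍ), g • z = (g : ℍ ≃ᵢ ℍ) z := fun _ _ => rfl
  have hm : ∀ g : G, Measurable fun z : ℍ => g • z := fun g =>
    (g : ℍ ≃ᵢ ℍ).continuous.measurable
  have : MeasurableConstSMul G ℍ := ⟨hm⟩
  have : SMulInvariantMeasure G ℍ (volume : Measure ℍ) := ⟨fun g s _ => by
    obtain ⟨x, hx⟩ := hg (G.inv_mem g.2)
    have e : (fun z : ℍ => g • z) ⁻¹' s = (fun z => glHom x z) '' s := by
      rw [hx]
      ext z
      constructor
      · intro h
        exact ⟨g • z, h, (g : ℍ ≃ᵢ ℍ).symm_apply_apply z⟩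
      · rintro ⟨y, hy, rfl⟩
        show (g : ℍ ≃ᵢ ℍ) ((g : ℍ ≃ᵢ ℍ)⁻¹ y) ∈ s
        have : (g : ℍ ≃ᵢ ℍ) ((g : ℍ ≃ᵢ ℍ)⁻¹ y) = y := (g : ℍ ≃ᵢ ℍ).apply_symm_apply y
        rw [this]
        exact hy
    rw [e, vol_gl]⟩
  have key : ∀ C : ℝ, HasArea G C → ∃ F : Set ℍ, IsFundamentalDomain G F ∧
      volume F = ENNReal.ofReal C := by
    rintro C ⟨F, h1, h2, h3, h4⟩
    refine ⟨F, IsFundamentalDomain.mk'' h1.nullMeasurableSet ?_ ?_ ?_, h4⟩
    · filter_upwards [h2] with z hz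
      obtain ⟨g, hg, hz⟩ := hz
      exact ⟨⟨g, hg⟩, hz⟩
    · intro g hne
      exact h3 g g.2 fun h => hne (Subtype.ext h)
    · intro g
      exact (measurePreserving_smul g volume).quasiMeasurePreserving
  obtain ⟨F, hF, eF⟩ := key A hA
  obtain ⟨F', hF', eF'⟩ := key B hB
  rw [← eF, ← eF']
  exact hF.measure_eq hF'

theorem HasArea.unique_pos {G : Subgroup (ℍ ≃ᵢ ℍ)} (hG : Discrete G) (hg : G ≤ glHom.range)
    {A B : ℝ} (hA : HasArea G A) (hB : HasArea G B) (h0 : 0 ≤ A) (h0' : 0 ≤ B) : A = B := by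
  have := HasArea.unique hG hg hA hB
  rwa [ENNReal.ofReal_eq_ofReal_iff h0 h0'] at this

end Iso180
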