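import Pool.Agent.Work.MP_180c68_gt.Defs

/-!
# Invariance of the hyperbolic Laplacian and transplantation of eigenfunctions
-/

set_option autoImplicit false

open UpperHalfPlane MeasureTheory Filter Topology
open scoped MatrixGroups ContDiff

namespace Iso180

/-! ### Second derivative of a composition with a holomorphic map -/

theorem fderiv2_comp {F : ℂ → ℝ} {φ : ℂ → ℂ} {z : ℂ} (hF : ContDiffAt ℝ 2 F (φ z))
    (hφ : AnalyticAt ℂ φ z) (v : ℂ) :
    fderiv ℝ (fderiv ℝ (fun w => F (φ w))) z v v =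
      fderiv ℝ (fderiv ℝ F) (φ z) (deriv φ z * v) (deriv φ z * v) +
        fderiv ℝ F (φ z) (deriv (deriv φ) z * v * v) := by
  have hφd : ∀ {w : ℂ}, AnalyticAt ℂ φ w →
      HasFDerivAt φ (ContinuousLinearMap.mul ℝ ℂ (deriv φ w)) w := by
    intro w hw
    have h1 := (hw.differentiableAt.hasDerivAt.hasFDerivAt).restrictScalars ℝ
    refine h1.congr_fderiv ?_
    ext x
    simp [mul_comm]
  have hev : ∀ᶠ w in 𝓝 z, AnalyticAt ℂ φ w := hφ.eventually_analyticAt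
  have hFev : ∀ᶠ w in 𝓝 z, ContDiffAt ℝ 2 F (φ w) :=
    hφ.continuousAt.eventually (hF.eventually (by simp))
  have heq : (fderiv ℝ (fun w => F (φ w))) =ᶠ[𝓝 z]
      fun w => (fderiv ℝ F (φ w)).comp (ContinuousLinearMap.mul ℝ ℂ (deriv φ w)) := by
    filter_upwards [hev, hFev] with w h1 h2
    have h3 : HasFDerivAt F (fderiv ℝ F (φ w)) (φ w) :=
      (h2.differentiableAt (by norm_num)).hasFDerivAt
    exact (h3.comp w (hφd h1)).fderiv
  rw [heq.fderiv_eq]
  have hA1 : HasFDerivAt (fderiv ℝ F) (fderiv ℝ (fderiv ℝ F) (φ z)) (φ z) := by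
    have h4 : ContDiffAt ℝ 1 (fderiv ℝ F) (φ z) := hF.fderiv_right (by norm_num)
    exact (h4.differentiableAt (by norm_num)).hasFDerivAt
  have hA : HasFDerivAt (fun w => fderiv ℝ F (φ w))
      ((fderiv ℝ (fderiv ℝ F) (φ z)).comp (ContinuousLinearMap.mul ℝ ℂ (deriv φ z))) z :=
    hA1.comp z (hφd hφ)
  have hB1 : HasFDerivAt (deriv φ) (ContinuousLinearMap.mul ℝ ℂ (deriv (deriv φ) z)) z := by
    have h1 := (hφ.deriv.differentiableAt.hasDerivAt.hasFDerivAt).restrictScalars ℝ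
    refine h1.congr_fderiv ?_
    ext x
    simp [mul_comm]
  have hB : HasFDerivAt (fun w => ContinuousLinearMap.mul ℝ ℂ (deriv φ w))
      ((ContinuousLinearMap.mul ℝ ℂ).comp (ContinuousLinearMap.mul ℝ ℂ (deriv (deriv φ) z))) z :=
    (ContinuousLinearMap.mul ℝ ℂ).hasFDerivAt.comp z hB1
  rw [(hA.clm_comp hB).fderiv]
  simp [add_comm]

theorem lap_comp {F : ℂ → ℝ} {φ : ℂ → ℂ} {z : ℂ} (hF : ContDiffAt ℝ 2 F (φ z))
    (hφ : AnalyticAt ℂ φ z) :
    Laplacian.laplacian (fun w => F (φ w)) z =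
      Complex.normSq (deriv φ z) * Laplacian.laplacian F (φ z) := by
  rw [InnerProductSpace.laplacian_eq_iteratedFDeriv_complexPlane,
    InnerProductSpace.laplacian_eq_iteratedFDeriv_complexPlane]
  simp only [iteratedFDeriv_two_apply, Matrix.cons_val_zero, Matrix.cons_val_one]
  rw [fderiv2_comp hF hφ, fderiv2_comp hF hφ]
  set B := fderiv ℝ (fderiv ℝ F) (φ z)
  set L := fderiv ℝ F (φ z)
  set a := deriv φ z
  set c := deriv (deriv φ) z
  have e1 : L (c * 1 * 1) + L (c * Complex.I * Complex.I) = 0 := by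
    rw [← map_add]
    have : c * 1 * 1 + c * Complex.I * Complex.I = 0 := by
      rw [mul_assoc c Complex.I, Complex.I_mul_I]; ring
    rw [this, map_zero]
  have ea : a * 1 = (a.re : ℝ) • (1 : ℂ) + (a.im : ℝ) • Complex.I := by
    apply Complex.ext <;> simp
  have ei : a * Complex.I = (-a.im : ℝ) • (1 : ℂ) + (a.re : ℝ) • Complex.I := by
    apply Complex.ext <;> simp
  have e2 : B (a * 1) (a * 1) + B (a * Complex.I) (a * Complex.I) =
      Complex.normSq a * (B 1 1 + B Complex.I Complex.I) := by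
    rw [ea, ei]
    simp only [map_add, map_smul, add_apply, smul_apply,
      smul_eq_mul, Complex.normSq_apply]
    ring
  linarith

/-! ### The group action -/

theorem upper_mem (z : ℍ) : {w : ℂ | 0 < w.im} ∈ 𝓝 (z : ℂ) :=
  (isOpen_lt continuous_const Complex.continuous_im).mem_nhds z.im_pos

theorem Smooth.at {f : ℍ → ℝ} (hf : Smooth f) (z : ℍ) :
    ContDiffAt ℝ ∞ (fun w : ℂ => f (ofComplex w)) (z : ℂ) := hf.contDiffAt (upper_mem z)

theorem smooth_of_at {f : ℍ → ℝ}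
    (h : ∀ z : ℍ, ContDiffAt ℝ ∞ (fun w : ℂ => f (ofComplex w)) (z : ℂ)) : Smooth f :=
  fun w hw => (h ⟨w, hw⟩).contDiffWithinAt

theorem two_le_infty : (2 : WithTop ℕ∞) ≤ ∞ := WithTop.coe_le_coe.2 (le_top : (2 : ℕ∞) ≤ ⊤)

theorem ext_smul (g : GL (Fin 2) ℝ) (f : ℍ → ℝ) :
    (fun w : ℂ => f (g • ofComplex w)) =
      fun w : ℂ => (fun w : ℂ => f (ofComplex w)) (↑(g • ofComplex w) : ℂ) := by
  funext w
  simp only [ofComplex_apply]

theorem smooth_comp_pos {g : GL (Fin 2) ℝ} (hg : 0 < g.val.det) {f : ℍ → ℝ} (hf : Smooth f) :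
    Smooth (fun z => f (g • z)) := by
  refine smooth_of_at fun z => ?_
  rw [ext_smul g f]
  have h1 : ContDiffAt ℝ ∞ (fun w : ℂ => (↑(g • ofComplex w) : ℂ)) (z : ℂ) :=
    ((UpperHalfPlane.analyticAt_smul hg z).contDiffAt (n := ∞)).restrict_scalars ℝ
  have h2 : ContDiffAt ℝ ∞ (fun w : ℂ => f (ofComplex w))
      ((fun w : ℂ => (↑(g • ofComplex w) : ℂ)) (z : ℂ)) := by
    simp only [ofComplex_apply]
    exact hf.at (g • z)
  exact ContDiffAt.comp (g := fun w : ℂ => f (ofComplex w))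
    (f := fun w : ℂ => (↑(g • ofComplex w) : ℂ)) (z : ℂ) h2 h1

theorem lapB_comp_pos {g : GL (Fin 2) ℝ} (hg : 0 < g.val.det) {f : ℍ → ℝ} (hf : Smooth f)
    (z : ℍ) : lapB (fun w => f (g • w)) z = lapB f (g • z) := by
  unfold lapB
  rw [ext_smul g f]
  have h2 : ContDiffAt ℝ 2 (fun w : ℂ => f (ofComplex w))
      ((fun w : ℂ => (↑(g • ofComplex w) : ℂ)) (z : ℂ)) := by
    simp only [ofComplex_apply]
    exact (hf.at (g • z)).of_le two_le_infty
  rw [lap_comp (φ := fun w : ℂ => (↑(g • ofComplex w) : ℂ)) h2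
    (UpperHalfPlane.analyticAt_smul hg z), UpperHalfPlane.deriv_smul hg z]
  simp only [ofComplex_apply]
  rw [im_smul_eq_div_normSq]
  have h3 : Complex.normSq (denom g z) ≠ 0 := normSq_denom_ne_zero g z.im_ne_zero
  have h4 : Complex.normSq ((g.val.det : ℂ) / denom g z ^ 2) =
      g.val.det ^ 2 / (Complex.normSq (denom g z)) ^ 2 := by
    rw [map_div₀, map_pow, Complex.normSq_ofReal]
    ring
  rw [h4]
  have h5 : |g.det.val| ^ 2 = g.val.det ^ 2 := by
    rw [sq_abs]; rfl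
  rw [div_pow, mul_pow, h5]
  field_simp

/-- The reflection `z ↦ - conj z` of the complex plane. -/
noncomputable def refl : ℂ ≃ₗᵢ[ℝ] ℂ := Complex.conjLIE.trans (LinearIsometryEquiv.neg ℝ)

theorem refl_apply (w : ℂ) : refl w = -(starRingEnd ℂ) w := rfl

theorem ext_J (f : ℍ → ℝ) (z : ℍ) :
    (fun w : ℂ => f (J • ofComplex w)) =ᶠ[𝓝 (z : ℂ)]
      fun w : ℂ => (fun w : ℂ => f (ofComplex w)) (refl w) := by
  filter_upwards [upper_mem z] with w hw
  have hw' : 0 < w.im := hw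
  rw [J_smul, refl_apply, ofComplex_apply_of_im_pos hw']

theorem smooth_comp_J {f : ℍ → ℝ} (hf : Smooth f) : Smooth (fun z => f (J • z)) := by
  refine smooth_of_at fun z => ?_
  refine ContDiffAt.congr_of_eventuallyEq ?_ (ext_J f z)
  have h2 : ContDiffAt ℝ ∞ (fun w : ℂ => f (ofComplex w)) (refl (z : ℂ)) := by
    have : refl (z : ℂ) = ((J • z : ℍ) : ℂ) := by rw [coe_J_smul, refl_apply]
    rw [this]
    exact hf.at (J • z)
  exact ContDiffAt.comp (g := fun w : ℂ => f (ofComplex w)) (f := fun w : ℂ => refl w)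
    (z : ℂ) h2 refl.toContinuousLinearEquiv.contDiff.contDiffAt

theorem lapB_comp_J {f : ℍ → ℝ} (z : ℍ) : lapB (fun w => f (J • w)) z = lapB f (J • z) := by
  unfold lapB
  have him : (J • z : ℍ).im = z.im := by
    rw [im_smul_eq_div_normSq]
    simp [denom, J]
  rw [him, (InnerProductSpace.laplacian_congr_nhds (ext_J f z)).eq_of_nhds]
  congr 1
  have hz : ((J • z : ℍ) : ℂ) = refl (z : ℂ) := by rw [coe_J_smul, refl_apply]
  rw [hz, InnerProductSpace.laplacian_eq_iteratedFDeriv_complexPlane,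
    InnerProductSpace.laplacian_eq_iteratedFDeriv_complexPlane]
  set F : ℂ → ℝ := fun w : ℂ => f (ofComplex w)
  have h1 := refl.toContinuousLinearEquiv.iteratedFDerivWithin_comp_right (𝕜 := ℝ) F
    uniqueDiffOn_univ (Set.mem_univ (refl.toContinuousLinearEquiv (z : ℂ))) 2
  rw [Set.preimage_univ, iteratedFDerivWithin_univ, iteratedFDerivWithin_univ] at h1
  have h2 : (fun w : ℂ => F (refl w)) = F ∘ (refl.toContinuousLinearEquiv : ℂ → ℂ) := rfl
  have h3 : refl.toContinuousLinearEquiv (z : ℂ) = refl (z : ℂ) := rfl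
  simp only [h2, h1, ContinuousMultilinearMap.compContinuousLinearMap_apply, h3]
  have e1 : (fun i : Fin 2 => (refl.toContinuousLinearEquiv : ℂ →L[ℝ] ℂ)
      ((![1, 1] : Fin 2 → ℂ) i)) = fun i => (-1 : ℝ) • (![1, 1] : Fin 2 → ℂ) i := by
    funext i
    fin_cases i <;> simp [refl_apply]
  have e2 : (fun i : Fin 2 => (refl.toContinuousLinearEquiv : ℂ →L[ℝ] ℂ)
      ((![Complex.I, Complex.I] : Fin 2 → ℂ) i)) = (![Complex.I, Complex.I] : Fin 2 → ℂ) := by
    funext i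
    fin_cases i <;> simp [refl_apply]
  rw [e1, e2, ContinuousMultilinearMap.map_smul_univ]
  simp

theorem det_J_mul {g : GL (Fin 2) ℝ} (hg : ¬ 0 < g.val.det) : 0 < (J * g).val.det := by
  have h1 : g.val.det < 0 := lt_of_le_of_ne (not_lt.1 hg) g.det_ne_zero
  rw [Units.val_mul, Matrix.det_mul]
  have : (J : GL (Fin 2) ℝ).val.det = -1 := by
    rw [val_J, Matrix.det_fin_two_of]; norm_num
  rw [this]; linarith

theorem smul_J (g : GL (Fin 2) ℝ) (z : ℍ) : g • z = J • ((J * g) • z) := by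
  rw [← mul_smul, ← mul_assoc, ← sq, J_sq, one_mul]

theorem smooth_comp (g : GL (Fin 2) ℝ) {f : ℍ → ℝ} (hf : Smooth f) :
    Smooth (fun z => f (g • z)) := by
  by_cases hg : 0 < g.val.det
  · exact smooth_comp_pos hg hf
  · have h1 := smooth_comp_pos (det_J_mul hg) (smooth_comp_J hf)
    simp only [← smul_J] at h1
    exact h1

theorem lapB_comp (g : GL (Fin 2) ℝ) {f : ℍ → ℝ} (hf : Smooth f) (z : ℍ) :
    lapB (fun w => f (g • w)) z = lapB f (g • z) := by
  by_cases hg : 0 < g.val.det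
  · exact lapB_comp_pos hg hf z
  · have h1 := lapB_comp_pos (det_J_mul hg) (smooth_comp_J hf) z
    simp only [← smul_J] at h1
    rw [h1, lapB_comp_J, ← smul_J]

/-! ### Transplantation -/

theorem mem_V {μ : ℝ} {f : ℍ → ℝ} :
    f ∈ eigenspace ⊥ μ ↔ Smooth f ∧ ∀ z, lapB f z = μ * f z := by
  constructor
  · rintro ⟨h1, _, h2⟩
    exact ⟨h1, h2⟩
  · rintro ⟨h1, h2⟩
    refine ⟨h1, fun g hg z => ?_, h2⟩
    rw [Subgroup.mem_bot.1 hg]
    rfl

section

variable {W : Type} [Group W] (ψ : W →* (ℍ ≃ᵢ ℍ)) {n : ℕ} (X Y : W →* Equiv.Perm (Fin n))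
  (x0 y0 : Fin n)

/-- The group of the vertex `x0`. -/
noncomputable abbrev stG : Subgroup (ℍ ≃ᵢ ℍ) :=
  ((MulAction.stabilizer (Equiv.Perm (Fin n)) x0).comap X).map ψ

theorem mem_stG {g : ℍ ≃ᵢ ℍ} : g ∈ stG ψ X x0 ↔ ∃ w, X w x0 = x0 ∧ ψ w = g := by
  constructor
  · rintro ⟨w, hw, rfl⟩
    exact ⟨w, hw, rfl⟩
  · rintro ⟨w, hw, rfl⟩
    exact ⟨w, hw, rfl⟩

variable {ψ X Y x0 y0}

/-- The values of an invariant function on the tiles. -/
noncomputable def tile (ψ : W →* (ℍ ≃ᵢ ℍ)) (s : Fin n → W) (f : ℍ → ℝ) (i : Fin n) (z : ℍ) : ℝ :=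
  f (ψ (s i)⁻¹ z)

theorem tile_eq {s : Fin n → W} (hs : ∀ i, X (s i) x0 = i) {f : ℍ → ℝ}
    (hf : ∀ g ∈ stG ψ X x0, ∀ z, f (g z) = f z) (w : W) (i : Fin n) (hw : X w x0 = i) (z : ℍ) :
    tile ψ s f i z = f (ψ w⁻¹ z) := by
  have h1 : X (w⁻¹ * s i) x0 = x0 := by
    rw [map_mul, map_inv, Equiv.Perm.mul_apply, hs i, ← hw]
    exact Equiv.symm_apply_apply _ _
  have h2 : ψ w⁻¹ z = ψ (w⁻¹ * s i) (ψ (s i)⁻¹ z) := by
    rw [← IsometryEquiv.mul_apply, ← map_mul, mul_assoc, mul_inv_cancel, mul_one]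
  rw [h2, hf _ ((mem_stG ψ X x0).2 ⟨_, h1, rfl⟩)]
  rfl

theorem tile_smul {s : Fin n → W} (hs : ∀ i, X (s i) x0 = i) {f : ℍ → ℝ}
    (hf : ∀ g ∈ stG ψ X x0, ∀ z, f (g z) = f z) (w : W) (i : Fin n) (z : ℍ) :
    tile ψ s f (X w i) z = tile ψ s f i (ψ w⁻¹ z) := by
  have h1 : X (w * s i) x0 = X w i := by rw [map_mul, Equiv.Perm.mul_apply, hs i]
  rw [tile_eq hs hf _ _ h1, tile, mul_inv_rev, map_mul, IsometryEquiv.mul_apply]

theorem tile_mem (hψ : ∀ w, ∃ g : GL (Fin 2) ℝ, ∀ z, ψ w z = g • z) (s : Fin n → W) {f : ℍ → ℝ}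
    {μ : ℝ} (hf : f ∈ eigenspace ⊥ μ) (i : Fin n) : tile ψ s f i ∈ eigenspace ⊥ μ := by
  rw [mem_V] at hf ⊢
  obtain ⟨g, hg⟩ := hψ (s i)⁻¹
  have h1 : tile ψ s f i = fun z => f (g • z) := by
    funext z
    rw [tile, hg]
  rw [h1]
  exact ⟨smooth_comp g hf.1, fun z => by rw [lapB_comp g hf.1, hf.2]⟩

/-- Transplantation. -/
noncomputable def trans (ψ : W →* (ℍ ≃ᵢ ℍ)) (s : Fin n → W) (T : Matrix (Fin n) (Fin n) ℝ)
    (f : ℍ → ℝ) (i : Fin n) (z : ℍ) : ℝ := ∑ j, T i j * tile ψ s f j z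

theorem trans_smul {s : Fin n → W} (hs : ∀ i, X (s i) x0 = i)
    {T : Matrix (Fin n) (Fin n) ℝ} (hT : ∀ w i j, T (Y w i) (X w j) = T i j) {f : ℍ → ℝ}
    (hf : ∀ g ∈ stG ψ X x0, ∀ z, f (g z) = f z) (w : W) (i : Fin n) (z : ℍ) :
    trans ψ s T f (Y w i) z = trans ψ s T f i (ψ w⁻¹ z) := by
  unfold trans
  rw [← Equiv.sum_comp (X w)]
  exact Finset.sum_congr rfl fun j _ => by rw [hT, tile_smul hs hf]

theorem trans_mem (hψ : ∀ w, ∃ g : GL (Fin 2) ℝ, ∀ z, ψ w z = g • z) {s : Fin n → W}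
    (hs : ∀ i, X (s i) x0 = i)
    {T : Matrix (Fin n) (Fin n) ℝ} (hT : ∀ w i j, T (Y w i) (X w j) = T i j) {f : ℍ → ℝ} {μ : ℝ}
    (hf : f ∈ eigenspace (stG ψ X x0) μ) : trans ψ s T f y0 ∈ eigenspace (stG ψ Y y0) μ := by
  obtain ⟨h1, h2, h3⟩ := hf
  have h4 : trans ψ s T f y0 = ∑ j, T y0 j • tile ψ s f j := by
    funext z
    simp only [trans, Finset.sum_apply, Pi.smul_apply, smul_eq_mul]
  have h5 : trans ψ s T f y0 ∈ eigenspace ⊥ μ := by
    rw [h4]
    exact Submodule.sum_mem _ fun j _ =>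
      Submodule.smul_mem _ _ (tile_mem hψ s (mem_V.2 ⟨h1, h3⟩) j)
  refine ⟨(mem_V.1 h5).1, fun g hg z => ?_, (mem_V.1 h5).2⟩
  obtain ⟨w, hw, rfl⟩ := (mem_stG ψ Y y0).1 hg
  have h6 := trans_smul hs hT h2 w⁻¹ y0 z
  rw [inv_inv] at h6
  rw [← h6]
  congr 1
  rw [map_inv, Equiv.Perm.inv_eq_iff_eq, hw]

/-- Transplantation as a linear map. -/
noncomputable def transL (hψ : ∀ w, ∃ g : GL (Fin 2) ℝ, ∀ z, ψ w z = g • z) {s : Fin n → W}
    (hs : ∀ i, X (s i) x0 = i)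
    {T : Matrix (Fin n) (Fin n) ℝ} (hT : ∀ w i j, T (Y w i) (X w j) = T i j) (μ : ℝ) :
    eigenspace (stG ψ X x0) μ →ₗ[ℝ] eigenspace (stG ψ Y y0) μ where
  toFun f := ⟨trans ψ s T f y0, trans_mem hψ hs hT f.2⟩
  map_add' f h := by
    apply Subtype.ext
    funext z
    simp only [trans, tile, Submodule.coe_add, Pi.add_apply, mul_add, Finset.sum_add_distrib]
  map_smul' c f := by
    apply Subtype.ext
    funext z
    simp only [trans, tile, Submodule.coe_smul, Pi.smul_apply, smul_eq_mul, RingHom.id_apply,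
      Finset.mul_sum]
    exact Finset.sum_congr rfl fun j _ => by ring

theorem trans_trans {s t : Fin n → W} (hs : ∀ i, X (s i) x0 = i) (ht : ∀ i, Y (t i) y0 = i)
    {T S : Matrix (Fin n) (Fin n) ℝ} (hT : ∀ w i j, T (Y w i) (X w j) = T i j) (hST : S * T = 1)
    {f : ℍ → ℝ} (hf : ∀ g ∈ stG ψ X x0, ∀ z, f (g z) = f z) (z : ℍ) :
    trans ψ t S (trans ψ s T f y0) x0 z = f z := by
  have h1 : ∀ j z, tile ψ t (trans ψ s T f y0) j z = trans ψ s T f j z := by
    intro j z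
    rw [tile, ← trans_smul hs hT hf, ht]
  have h2 : trans ψ t S (trans ψ s T f y0) x0 z = ∑ k, (S * T) x0 k * tile ψ s f k z := by
    simp only [trans, h1, Matrix.mul_apply, Finset.mul_sum, Finset.sum_mul]
    have : ∀ j, S x0 j * (∑ k, T j k * tile ψ s f k z) = ∑ k, S x0 j * T j k * tile ψ s f k z :=
      fun j => by rw [Finset.mul_sum]; exact Finset.sum_congr rfl fun k _ => by ring
    rw [Finset.sum_comm]
    refine Finset.sum_congr rfl fun j _ => Finset.sum_congr rfl fun k _ => ?_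
    ring
  rw [h2, hST]
  simp only [Matrix.one_apply, ite_mul, one_mul, zero_mul, Finset.sum_ite_eq, Finset.mem_univ,
    if_true]
  rw [tile_eq hs hf 1 x0 (by simp)]
  simp

end

theorem sunada {W : Type} [Group W] (ψ : W →* (ℍ ≃ᵢ ℍ))
    (hψ : ∀ w, ∃ g : GL (Fin 2) ℝ, ∀ z, ψ w z = g • z) {n : ℕ} (X Y : W →* Equiv.Perm (Fin n))
    (x0 y0 : Fin n) (hX : ∀ i, ∃ w, X w x0 = i) (hY : ∀ i, ∃ w, Y w y0 = i)
    (T S : Matrix (Fin n) (Fin n) ℝ) (hT : ∀ w i j, T (Y w i) (X w j) = T i j)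
    (hTS : T * S = 1) :
    Isospectral (((MulAction.stabilizer (Equiv.Perm (Fin n)) x0).comap X).map ψ)
      (((MulAction.stabilizer (Equiv.Perm (Fin n)) y0).comap Y).map ψ) := by
  intro μ
  choose s hs using hX
  choose t ht using hY
  have hST : S * T = 1 := mul_eq_one_comm.1 hTS
  have hS : ∀ w i j, S (X w i) (Y w j) = S i j := by
    intro w
    have h1 : T * (Matrix.of fun i j => S (X w i) (Y w j)) = 1 := by
      ext i j
      have h2 : (T * S) (Y w i) (Y w j) = (1 : Matrix (Fin n) (Fin n) ℝ) (Y w i) (Y w j) := by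
        rw [hTS]
      rw [Matrix.mul_apply, ← Equiv.sum_comp (X w)] at h2
      rw [Matrix.mul_apply]
      simp only [Matrix.of_apply]
      simp only [hT] at h2
      rw [h2]
      simp only [Matrix.one_apply, (Y w).injective.eq_iff]
    have h3 : S = Matrix.of fun i j => S (X w i) (Y w j) := by
      have h4 : S * (T * Matrix.of fun i j => S (X w i) (Y w j)) = S := by rw [h1, mul_one]
      rw [← mul_assoc, hST, one_mul] at h4
      exact h4.symm
    intro i j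
    conv_rhs => rw [h3]
    rfl
  have e : eigenspace (stG ψ X x0) μ ≃ₗ[ℝ] eigenspace (stG ψ Y y0) μ :=
    LinearEquiv.ofLinearMap (transL (y0 := y0) hψ hs hT μ) (transL (y0 := x0) hψ ht hS μ)
      (by
        apply LinearMap.ext
        intro f
        apply Subtype.ext
        funext z
        exact trans_trans ht hs hS hTS f.2.2.1 z)
      (by
        apply LinearMap.ext
        intro f
        apply Subtype.ext
        funext z
        exact trans_trans hs ht hT hST f.2.2.1 z)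
  exact e.rank_eq

end Iso180
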