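import Pool.Agent.Work.MP_180c68_gt.Basic
import Pool.Agent.Work.MP_de2d29_al.Tits

/-!
MP_180c68_gt: the hyperboloid model and the Coxeter group of type (2, 4, 8).
-/

set_option autoImplicit false

open UpperHalfPlane MeasureTheory
open scoped MatrixGroups ContDiff ComplexConjugate
open Pool.Agent.Work.MP_de2d29_al

namespace Iso180

/-- the Lorentz form -/
noncomputable def BL : LinearMap.BilinForm ℝ (Fin 3 → ℝ) :=
  LinearMap.mk₂ ℝ (fun v w => -(v 0 * w 2 + v 2 * w 0) / 2 + v 1 * w 1)
    (by intro a b c; simp only [Pi.add_apply]; ring)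
    (by intro a b c; simp only [Pi.smul_apply, smul_eq_mul]; ring)
    (by intro a b c; simp only [Pi.add_apply]; ring)
    (by intro a b c; simp only [Pi.smul_apply, smul_eq_mul]; ring)

theorem BL_apply (v w : Fin 3 → ℝ) : BL v w = -(v 0 * w 2 + v 2 * w 0) / 2 + v 1 * w 1 := rfl

/-- the embedding of the hyperbolic plane in the Lorentz space -/
noncomputable def Phi (z : ℍ) : Fin 3 → ℝ :=
  ![(z.re ^ 2 + z.im ^ 2) / z.im, z.re / z.im, 1 / z.im]

theorem BL_Phi (z w : ℍ) : BL (Phi z) (Phi w) = -Real.cosh (dist z w) := by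
  rw [BL_apply, cosh_dist']
  simp only [Phi, Matrix.cons_val_zero, Matrix.cons_val_one, Matrix.cons_val]
  have := z.im_pos.ne'
  have := w.im_pos.ne'
  field_simp
  ring

theorem Phi_inj : Function.Injective Phi := by
  intro z w h
  have h1 : BL (Phi z) (Phi w) = BL (Phi z) (Phi z) := by rw [h]
  rw [BL_Phi, BL_Phi, dist_self, Real.cosh_zero, neg_inj] at h1
  by_contra hne
  have h2 := Real.one_lt_cosh.2 (dist_ne_zero.2 hne)
  linarith

/-- the three simple roots -/
noncomputable def ev : Fin 3 → (Fin 3 → ℝ) := ![![0, -1, 0], ![-1, 0, 1], ![alp, kap, -del]]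

/-- the Coxeter matrix of type (2, 4, 8) -/
def M3 : CoxeterMatrix (Fin 3) where
  M := !![1, 2, 8; 2, 1, 4; 8, 4, 1]
  isSymm := by
    apply Matrix.IsSymm.ext
    decide
  diagonal := by decide
  off_diagonal := by decide

theorem alp_add_del : alp + del = √2 := by unfold alp del; ring

theorem rootBasis : RootBasis M3 BL ev where
  symm v w := by rw [BL_apply, BL_apply]; ring
  fin s t _ := by
    have h8 : Real.cos (Real.pi / 8) = kap := rfl
    have h1 := kap_alp_del
    have h2 := alp_add_del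
    fin_cases s <;> fin_cases t <;>
      simp [M3, BL_apply, ev, Real.cos_pi_div_four, h8] <;> linarith
  inf s t h := by
    exfalso
    revert h
    fin_cases s <;> fin_cases t <;> simp [M3]

/-- the reflections -/
noncomputable def rfl3 : Fin 3 → (ℍ ≃ᵢ ℍ) := ![ra, rb, rc]

/-- coordinates of a reflection given by a matrix of determinant `-1` -/
theorem gl_coords (g : GL (Fin 2) ℝ) (hd : g.det.val = -1) (z : ℍ) :
    (g • z).im = z.im / ((g 1 0 * z.re + g 1 1) ^ 2 + (g 1 0 * z.im) ^ 2) ∧
    (g • z).re = ((g 0 0 * z.re + g 0 1) * (g 1 0 * z.re + g 1 1) + g 0 0 * g 1 0 * z.im ^ 2) /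
      ((g 1 0 * z.re + g 1 1) ^ 2 + (g 1 0 * z.im) ^ 2) := by
  have hn : Complex.normSq (denom g z) = (g 1 0 * z.re + g 1 1) ^ 2 + (g 1 0 * z.im) ^ 2 := by
    simp [denom, Complex.normSq_apply]; ring
  constructor
  · rw [im_smul_eq_div_normSq, hd, hn]
    simp
  · rw [re_smul, Complex.div_re, hn]
    simp [num, denom]
    ring

theorem Phi_gl (g : GL (Fin 2) ℝ) (be al ga : ℝ) (hd : g.det.val = -1) (h00 : g 0 0 = be)
    (h01 : g 0 1 = -al) (h10 : g 1 0 = ga) (h11 : g 1 1 = -be) (h1 : be ^ 2 - al * ga = 1)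
    (z : ℍ) :
    Phi (g • z) = Phi z - (2 * BL ![al, be, ga] (Phi z)) • ![al, be, ga] := by
  have hz := z.im_pos
  obtain ⟨c1, c2⟩ := gl_coords g hd z
  rw [h00, h01, h10, h11] at c2
  rw [h10, h11] at c1
  unfold Phi
  rw [c1, c2]
  generalize z.re = x
  generalize z.im = y at *
  have hz' := hz.ne'
  have hD : 0 < (ga * x + -be) ^ 2 + (ga * y) ^ 2 := by
    rcases eq_or_ne ga 0 with h0 | h0
    · subst h0
      have : 0 < be ^ 2 := by linarith
      nlinarith
    · have : 0 < (ga * y) ^ 2 := by positivity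
      positivity
  have hD' := hD.ne'
  have hD2 : (x * ga + -be) ^ 2 + ga ^ 2 * y ^ 2 ≠ 0 := by
    intro h; apply hD'; rw [← h]; ring
  ext i
  fin_cases i
  · simp [BL_apply]
    field_simp
    linear_combination (((x * ga + -be) ^ 2 + ga ^ 2 * y ^ 2) * (x ^ 2 + y ^ 2) -
      y ^ 2 * (1 + be ^ 2 - al * ga)) * h1
  · simp [BL_apply]
    field_simp
    linear_combination x * h1
  · simp [BL_apply]
    field_simp
    linear_combination h1

theorem det_RA : RA.det.val = -1 := by
  simp [RA, Matrix.GeneralLinearGroup.val_det_apply, Matrix.det_fin_two]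

theorem det_RB : RB.det.val = -1 := by
  simp [RB, Matrix.GeneralLinearGroup.val_det_apply, Matrix.det_fin_two]

theorem det_RC : RC.det.val = -1 := by
  have := kap_alp_del
  simp [RC, Matrix.GeneralLinearGroup.val_det_apply, Matrix.det_fin_two]
  linarith

theorem Phi_rfl (s : Fin 3) (z : ℍ) : Phi (rfl3 s z) = rootBasis.rr s (Phi z) := by
  rw [RootBasis.rr_apply]
  fin_cases s
  · exact Phi_gl RA (-1) 0 0 det_RA (by simp [RA]) (by simp [RA]) (by simp [RA]) (by simp [RA])
      (by norm_num) z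
  · exact Phi_gl RB 0 (-1) 1 det_RB (by simp [RB]) (by simp [RB]) (by simp [RB]) (by simp [RB])
      (by norm_num) z
  · exact Phi_gl RC kap alp (-del) det_RC (by simp [RC]) (by simp [RC]) (by simp [RC])
      (by simp [RC]) (by linarith [kap_alp_del]) z

/-- the Coxeter group -/
abbrev W : Type := M3.Group

/-- the Coxeter system -/
abbrev cs : CoxeterSystem M3 W := M3.toCoxeterSystem

theorem rfl3_liftable : M3.IsLiftable rfl3 := by
  intro i j
  have key : ∀ (n : ℕ) (z : ℍ), Phi (((rfl3 i * rfl3 j) ^ n) z) =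
      ((rootBasis.rr i * rootBasis.rr j) ^ n) (Phi z) := by
    intro n
    induction n with
    | zero => intro z; rfl
    | succ n ih =>
      intro z
      rw [pow_succ, pow_succ]
      show Phi (((rfl3 i * rfl3 j) ^ n) (rfl3 i (rfl3 j z))) =
        ((rootBasis.rr i * rootBasis.rr j) ^ n) (rootBasis.rr i (rootBasis.rr j (Phi z)))
      rw [ih, Phi_rfl, Phi_rfl]
  ext1 z
  apply Phi_inj
  rw [key, rootBasis.rr_pow_eq_one]
  rfl

/-- the action of the Coxeter group on the hyperbolic plane -/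
noncomputable def psi : W →* (ℍ ≃ᵢ ℍ) := cs.lift ⟨rfl3, rfl3_liftable⟩

theorem psi_simple (s : Fin 3) : psi (cs.simple s) = rfl3 s :=
  cs.lift_apply_simple rfl3_liftable s

theorem psi_mul (w w' : W) (z : ℍ) : psi (w * w') z = psi w (psi w' z) := by
  rw [map_mul]; rfl

theorem psi_one (z : ℍ) : psi 1 z = z := by
  rw [map_one]; rfl

theorem Phi_psi (w : W) (z : ℍ) : Phi (psi w z) = rootBasis.rho cs w (Phi z) := by
  induction w using RootBasis.simple_induction cs with
  | one => rw [psi_one, rootBasis.rho_one]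
  | mul s w ih =>
    rw [psi_mul, rootBasis.rho_mul, psi_simple, Phi_rfl, ih, rootBasis.rho_simple]

theorem psi_gl (w : W) : ∃ g : GL (Fin 2) ℝ, ∀ z, psi w z = g • z := by
  induction w using RootBasis.simple_induction cs with
  | one => exact ⟨1, fun z => by rw [psi_one, one_smul]⟩
  | mul s w ih =>
    obtain ⟨g, hg⟩ := ih
    have : ∃ h : GL (Fin 2) ℝ, ∀ z, rfl3 s z = h • z := by
      fin_cases s
      · exact ⟨RA, fun _ => rfl⟩
      · exact ⟨RB, fun _ => rfl⟩
      · exact ⟨RC, fun _ => rfl⟩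
    obtain ⟨h, hh⟩ := this
    refine ⟨h * g, fun z => ?_⟩
    rw [psi_mul, psi_simple, hg, hh, mul_smul]

theorem mem_tri {z : ℍ} : z ∈ tri ↔ Phi z ∈ RootBasis.Dom BL ev := by
  have hy := z.im_pos
  have hy' := hy.ne'
  have e0 : BL (Phi z) (ev 0) = -(z.re / z.im) := by simp [BL_apply, Phi, ev]
  have e1 : BL (Phi z) (ev 1) = (1 - (z.re ^ 2 + z.im ^ 2)) / (2 * z.im) := by
    simp [BL_apply, Phi, ev]; field_simp; ring
  have e2 : BL (Phi z) (ev 2) =
      -(alp - del * (z.re ^ 2 + z.im ^ 2) - 2 * kap * z.re) / (2 * z.im) := by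
    simp [BL_apply, Phi, ev]; field_simp; ring
  constructor
  · rintro ⟨h1, h2, h3⟩ s
    fin_cases s
    · show BL (Phi z) (ev 0) ≤ 0
      rw [e0]
      have := div_nonneg h1 hy.le
      linarith
    · show BL (Phi z) (ev 1) ≤ 0
      rw [e1]
      exact div_nonpos_of_nonpos_of_nonneg (by linarith) (by positivity)
    · show BL (Phi z) (ev 2) ≤ 0
      rw [e2]
      exact div_nonpos_of_nonpos_of_nonneg (by linarith) (by positivity)
  · intro h
    have h1 := h 0
    have h2 := h 1
    have h3 := h 2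
    rw [e0] at h1
    rw [e1] at h2
    rw [e2] at h3
    refine ⟨?_, ?_, ?_⟩
    · by_contra hc
      push Not at hc
      have := div_neg_of_neg_of_pos hc hy
      linarith
    · by_contra hc
      push Not at hc
      have : 0 < (1 - (z.re ^ 2 + z.im ^ 2)) / (2 * z.im) := div_pos (by linarith) (by positivity)
      linarith
    · by_contra hc
      push Not at hc
      have : 0 < -(alp - del * (z.re ^ 2 + z.im ^ 2) - 2 * kap * z.re) / (2 * z.im) :=
        div_pos (by linarith) (by positivity)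
      linarith

end Iso180
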