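import Pool.Agent.Work.MP_180c68_gt.Pair

/-!
MP_180c68_gt: the two subgroups are not conjugate in the isometry group.
-/

set_option autoImplicit false

open UpperHalfPlane
open Pool.Agent.Work.MP_de2d29_al

namespace Iso180

/-- `Γ` contains a half-turn `u` about a point `p` whose stabiliser is `{1, u}`
(a cone point of order two). -/
def HasCone (Γ : Subgroup (ℍ ≃ᵢ ℍ)) : Prop :=
  ∃ p : ℍ, ∃ u ∈ Γ, u ≠ 1 ∧ (∀ q, u q = q → q = p) ∧ u p = p ∧ ∀ g ∈ Γ, g p = p → g = 1 ∨ g = u

theorem HasCone.of_conj {Γ : Subgroup (ℍ ≃ᵢ ℍ)} {c : ℍ ≃ᵢ ℍ}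
    (h : HasCone (Γ.map (MulAut.conj c).toMonoidHom)) : HasCone Γ := by
  obtain ⟨p, u, ⟨v, hv, rfl⟩, h1, h2, h3, h4⟩ := h
  have hc : ∀ (g : ℍ ≃ᵢ ℍ) (z : ℍ), ((MulAut.conj c).toMonoidHom g) z = c (g (c⁻¹ z)) :=
    fun _ _ => rfl
  have e1 : ∀ z, c⁻¹ (c z) = z := fun z => c.symm_apply_apply z
  have e2 : ∀ z, c (c⁻¹ z) = z := fun z => c.apply_symm_apply z
  refine ⟨c⁻¹ p, v, hv, ?_, ?_, ?_, ?_⟩
  · rintro rfl
    exact h1 (map_one _)
  · intro q hq
    have := h2 (c q) (by rw [hc, e1, hq])
    rw [← this, e1]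
  · rw [hc] at h3
    have h5 := congrArg (fun z => c⁻¹ z) h3
    rwa [e1] at h5
  · intro g hg hgp
    rcases h4 _ ⟨g, hg, rfl⟩ (by rw [hc, hgp, e2]) with h | h
    · left
      exact (MulAut.conj c).injective (by rw [map_one]; exact h)
    · right
      exact (MulAut.conj c).injective h

theorem gl_fix_a (z : ℍ) (h : z.re = 0) : rfl3 0 z = z := by
  apply Phi_inj
  rw [Phi_rfl, RootBasis.rr_apply]
  have : BL (ev 0) (Phi z) = 0 := by simp [BL_apply, Phi, ev, h]
  rw [this]; simp

theorem gl_fix_b (z : ℍ) (h : z.re ^ 2 + z.im ^ 2 = 1) : rfl3 1 z = z := by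
  apply Phi_inj
  rw [Phi_rfl, RootBasis.rr_apply]
  have : BL (ev 1) (Phi z) = 0 := by
    simp [BL_apply, Phi, ev, h]
  rw [this]; simp

/-- the reflections `a` and `b` have two fixed points -/
theorem exists_two_fixed (s : Fin 3) (hs : s ≠ 2) :
    ∃ q1 q2 : ℍ, q1 ≠ q2 ∧ psi (cs.simple s) q1 = q1 ∧ psi (cs.simple s) q2 = q2 := by
  have hne : ∀ a b c d : ℝ, ∀ (h1 : 0 < b) (h2 : 0 < d), a ≠ c ∨ b ≠ d →
      (⟨⟨a, b⟩, h1⟩ : ℍ) ≠ ⟨⟨c, d⟩, h2⟩ := by
    intro a b c d h1 h2 h he
    have e1 := congrArg UpperHalfPlane.re he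
    have e2 := congrArg UpperHalfPlane.im he
    rcases h with h | h
    · exact h e1
    · exact h e2
  have : s = 0 ∨ s = 1 := by revert s; decide
  rcases this with rfl | rfl
  · refine ⟨⟨⟨0, 1⟩, by norm_num⟩, ⟨⟨0, 2⟩, by norm_num⟩, hne _ _ _ _ _ _ (Or.inr (by norm_num)),
      ?_, ?_⟩
    · rw [psi_simple]; exact gl_fix_a _ rfl
    · rw [psi_simple]; exact gl_fix_a _ rfl
  · refine ⟨⟨⟨0, 1⟩, by norm_num⟩, ⟨⟨3 / 5, 4 / 5⟩, by norm_num⟩,
      hne _ _ _ _ _ _ (Or.inl (by norm_num)), ?_, ?_⟩
    · rw [psi_simple]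
      refine gl_fix_b _ ?_
      show (0 : ℝ) ^ 2 + 1 ^ 2 = 1
      norm_num
    · rw [psi_simple]
      refine gl_fix_b _ ?_
      show (3 / 5 : ℝ) ^ 2 + (4 / 5) ^ 2 = 1
      norm_num

theorem XX_word (l : List (Fin 3)) : XX (cs.wordProd l) = (l.map gx).prod := by
  induction l with
  | nil => simp
  | cons s l ih => rw [cs.wordProd_cons, map_mul, XX_simple, ih]; simp

theorem YY_word (l : List (Fin 3)) : YY (cs.wordProd l) = (l.map gy).prod := by
  induction l with
  | nil => simp
  | cons s l ih => rw [cs.wordProd_cons, map_mul, YY_simple, ih]; simp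

theorem wordProd_mem_par {l : List (Fin 3)} {J : Set (Fin 3)} (h : ∀ s ∈ l, s ∈ J) :
    cs.wordProd l ∈ RootBasis.par cs J := by
  induction l with
  | nil => simp
  | cons s l ih =>
    rw [cs.wordProd_cons]
    exact (RootBasis.par cs J).mul_mem (RootBasis.simple_mem_par cs (h s (by simp)))
      (ih fun t ht => h t (by simp [ht]))

theorem comm01 : cs.simple 0 * cs.simple 1 = cs.simple 1 * cs.simple (0 : Fin 3) := by
  have h := cs.simple_mul_simple_pow (0 : Fin 3) 1
  have hM : M3 0 1 = 2 := rfl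
  rw [hM, pow_two] at h
  have h2 := eq_inv_of_mul_eq_one_left h
  rw [mul_inv_rev, cs.inv_simple, cs.inv_simple] at h2
  exact h2

theorem mem_par01 {w : W} (hw : w ∈ RootBasis.par cs ({0, 1} : Set (Fin 3))) :
    w = 1 ∨ w = cs.simple 0 ∨ w = cs.simple 1 ∨ w = cs.simple 0 * cs.simple 1 := by
  have hc := comm01
  have h0 : cs.simple (0 : Fin 3) * cs.simple 0 = 1 := cs.simple_mul_simple_self 0
  have h1 : cs.simple (1 : Fin 3) * cs.simple 1 = 1 := cs.simple_mul_simple_self 1
  unfold RootBasis.par at hw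
  induction hw using Subgroup.closure_induction_left with
  | one => left; rfl
  | mul_left x hx y hy ih =>
    obtain ⟨s, hs, rfl⟩ := hx
    rcases hs with rfl | rfl
    · rcases ih with rfl | rfl | rfl | rfl
      · right; left; rw [mul_one]
      · left; exact h0
      · right; right; right; rfl
      · right; right; left; rw [← mul_assoc, h0, one_mul]
    · rcases ih with rfl | rfl | rfl | rfl
      · right; right; left; rw [mul_one]
      · right; right; right; exact hc.symm
      · left; exact h1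
      · right; left; rw [hc, ← mul_assoc, h1, one_mul]
  | inv_mul_cancel x hx y hy ih =>
    obtain ⟨s, hs, rfl⟩ := hx
    rw [cs.inv_simple]
    rcases hs with rfl | rfl
    · rcases ih with rfl | rfl | rfl | rfl
      · right; left; rw [mul_one]
      · left; exact h0
      · right; right; right; rfl
      · right; right; left; rw [← mul_assoc, h0, one_mul]
    · rcases ih with rfl | rfl | rfl | rfl
      · right; right; left; rw [mul_one]
      · right; right; right; exact hc.symm
      · left; exact h1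
      · right; left; rw [hc, ← mul_assoc, h1, one_mul]

theorem mem_par_single {s : Fin 3} {w : W} (hw : w ∈ RootBasis.par cs ({s} : Set (Fin 3))) :
    w = 1 ∨ w = cs.simple s := by
  unfold RootBasis.par at hw
  have h0 : cs.simple s * cs.simple s = 1 := cs.simple_mul_simple_self s
  induction hw using Subgroup.closure_induction_left with
  | one => left; rfl
  | mul_left x hx y hy ih =>
    obtain ⟨t, rfl, rfl⟩ := hx
    rcases ih with rfl | rfl
    · right; rw [mul_one]
    · left; exact h0
  | inv_mul_cancel x hx y hy ih =>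
    obtain ⟨t, rfl, rfl⟩ := hx
    rw [cs.inv_simple]
    rcases ih with rfl | rfl
    · right; rw [mul_one]
    · left; exact h0

/-! ### The second group has a cone point of order two -/

/-- the vertex with angle `π/2` -/
noncomputable def vI : ℍ := ⟨⟨0, 1⟩, by norm_num⟩

theorem Phi_vI : Phi vI = ![1, 0, 1] := by
  have h1 : vI.re = 0 := rfl
  have h2 : vI.im = 1 := rfl
  simp [Phi, h1, h2]

theorem vI_mem : Phi vI ∈ RootBasis.Dom BL ev := by
  intro s
  rw [Phi_vI]
  have h1 : del < alp := by unfold del alp; linarith [qq_pos]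
  fin_cases s <;> simp [BL_apply, ev]
  linarith

theorem walls_vI : RootBasis.walls BL ev (Phi vI) = {0, 1} := by
  have h1 : del < alp := by unfold del alp; linarith [qq_pos]
  ext s
  rw [RootBasis.walls, Set.mem_ofPred_eq, Phi_vI]
  fin_cases s
  · simp [BL_apply, ev]
  · simp [BL_apply, ev]
  · simp [BL_apply, ev]
    intro h
    linarith

theorem ab_fix {q : ℍ} (h : psi (cs.simple 0 * cs.simple 1) q = q) : q = vI := by
  have h1 := congrArg Phi h
  rw [psi_mul, psi_simple, psi_simple, Phi_rfl, Phi_rfl, RootBasis.rr_apply,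
    RootBasis.rr_apply] at h1
  have hy := q.im_pos
  have hy' := hy.ne'
  have h2 := congrFun h1 1
  have h3 := congrFun h1 2
  simp [BL_apply, Phi, ev] at h2 h3
  field_simp at h3
  have hre : q.re = 0 := h2.resolve_right hy'
  have him : q.im = 1 := by
    rw [hre] at h3
    nlinarith
  apply UpperHalfPlane.ext_re_im
  · exact hre
  · exact him

theorem hasCone_Gam2 : HasCone Gam2 := by
  -- a word moving tile 6 to tile 0
  obtain ⟨l, hl⟩ : ∃ l : List (Fin 3), (l.map gy).prod 6 = 0 := ⟨[2, 0, 2], by decide⟩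
  set w6 := cs.wordProd l with hw6
  have hw : YY w6 6 = 0 := by rw [hw6, YY_word]; exact hl
  have hx : ∀ x : W, x ∈ RootBasis.par cs ({0, 1} : Set (Fin 3)) → YY x 6 = 6 →
      x = 1 ∨ x = cs.simple 0 * cs.simple 1 := by
    intro x hx h6
    rcases mem_par01 hx with rfl | rfl | rfl | rfl
    · left; rfl
    · exfalso; rw [YY_simple] at h6; revert h6; decide
    · exfalso; rw [YY_simple] at h6; revert h6; decide
    · right; rfl
  have hinv : ∀ x : W, YY (w6 * x * w6⁻¹) 0 = 0 ↔ YY x 6 = 6 := by
    intro x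
    have h0 : (YY w6)⁻¹ 0 = 6 := by rw [Equiv.Perm.inv_eq_iff_eq]; exact hw.symm
    rw [map_mul, map_mul, map_inv, Equiv.Perm.mul_apply, Equiv.Perm.mul_apply, h0]
    constructor
    · intro h
      have : YY w6 (YY x 6) = YY w6 6 := by rw [h, hw]
      exact (YY w6).injective this
    · intro h; rw [h, hw]
  have hab : YY (cs.simple 0 * cs.simple 1) 6 = 6 := by
    rw [map_mul, YY_simple, YY_simple]; decide
  have hne1 : cs.simple 0 * cs.simple (1 : Fin 3) ≠ 1 := by
    intro h
    have := congrArg XX h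
    rw [map_mul, XX_simple, XX_simple, map_one] at this
    revert this; decide
  refine ⟨psi w6 vI, psi (w6 * (cs.simple 0 * cs.simple 1) * w6⁻¹), ?_, ?_, ?_, ?_, ?_⟩
  · refine ⟨_, ?_, rfl⟩
    exact (hinv _).2 hab
  · intro h
    have h2 := psi_injective (h.trans (map_one psi).symm)
    apply hne1
    have := congrArg (fun x => w6⁻¹ * x * w6) h2
    simpa [mul_assoc] using this
  · intro q hq
    rw [mul_assoc, psi_mul, psi_mul] at hq
    have h2 : psi (cs.simple 0 * cs.simple 1) (psi w6⁻¹ q) = psi w6⁻¹ q := by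
      apply (psi w6).injective
      rw [hq, ← psi_mul, mul_inv_cancel, psi_one]
    have h3 := ab_fix h2
    rw [← h3, ← psi_mul, mul_inv_cancel, psi_one]
  · rw [mul_assoc, psi_mul, psi_mul, ← psi_mul w6⁻¹, inv_mul_cancel, psi_one]
    congr 1
    apply Phi_inj
    rw [Phi_psi]
    refine (rootBasis.fix_iff cs vI_mem _).2 ?_
    rw [walls_vI]
    exact (RootBasis.par cs _).mul_mem (RootBasis.simple_mem_par cs (by simp))
      (RootBasis.simple_mem_par cs (by simp))
  · rintro _ ⟨x, hxs, rfl⟩ hfix
    have hxs' : YY x 0 = 0 := hxs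
    have h1 : psi (w6⁻¹ * x * w6) vI = vI := by
      rw [psi_mul, psi_mul, hfix, ← psi_mul, inv_mul_cancel, psi_one]
    have h2 := congrArg Phi h1
    rw [Phi_psi] at h2
    have h3 := (rootBasis.fix_iff cs vI_mem _).1 h2
    rw [walls_vI] at h3
    have h4 : YY (w6⁻¹ * x * w6) 6 = 6 := by
      rw [← hinv]
      simpa [mul_assoc] using hxs'
    rcases hx _ h3 h4 with h | h
    · left
      have : x = 1 := by
        have := congrArg (fun y => w6 * y * w6⁻¹) h
        simpa [mul_assoc] using this
      rw [this, map_one]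
    · right
      have : x = w6 * (cs.simple 0 * cs.simple 1) * w6⁻¹ := by
        rw [← h]; simp [mul_assoc]
      rw [← this]

/-! ### The first group has no cone point of order two -/

theorem cone_aux {q : ℍ} {y : W} {r : Fin 3} (hr : r ≠ 2) (v : W)
    (hy : y = v * cs.simple r * v⁻¹) : ¬ ∀ z, psi y z = z → z = q := by
  intro h
  obtain ⟨q1, q2, hne, h1, h2⟩ := exists_two_fixed r hr
  have k : ∀ q', psi (cs.simple r) q' = q' → psi v q' = q := by
    intro q' hq'
    apply h
    rw [hy, mul_assoc, psi_mul, psi_mul, ← psi_mul v⁻¹, inv_mul_cancel, psi_one, hq']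
  exact hne ((psi v).injective ((k q1 h1).trans (k q2 h2).symm))

set_option maxRecDepth 100000 in
theorem key02 : ∀ j : Fin 8, ∃ l ∈ ([[], [2], [0, 2], [2, 0, 2]] : List (List (Fin 3))),
    ((l.map gx).prod * gx 0 * ((l.map gx).prod)⁻¹) j = j := by decide

set_option maxRecDepth 100000 in
theorem key12 : ∀ j : Fin 8, ∃ l ∈ ([[], [2]] : List (List (Fin 3))),
    ((l.map gx).prod * gx 1 * ((l.map gx).prod)⁻¹) j = j := by decide

theorem not_hasCone_Gam1 : ¬ HasCone Gam1 := by
  rintro ⟨p, _, ⟨v, hv, rfl⟩, h1, h2, h3, h4⟩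
  obtain ⟨w, hw⟩ := exists_mem_tri p
  set q := psi w p with hq
  set i := XX w 0 with hi
  have hv0 : XX v 0 = 0 := hv
  set x := w * v * w⁻¹ with hx
  have hqD := mem_tri.1 hw
  -- x fixes q and the tile i
  have hwp : psi w⁻¹ q = p := by rw [hq, ← psi_mul, inv_mul_cancel, psi_one]
  have hxq : psi x q = q := by
    rw [hx, mul_assoc, psi_mul, psi_mul, hwp, h3]
  have hxi : XX x i = i := by
    have : (XX w)⁻¹ i = 0 := by rw [Equiv.Perm.inv_eq_iff_eq]
    rw [hx, map_mul, map_mul, map_inv, Equiv.Perm.mul_apply, Equiv.Perm.mul_apply, this, hv0]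
  have hx1 : x ≠ 1 := by
    intro h
    apply h1
    have : v = 1 := by
      have := congrArg (fun y => w⁻¹ * y * w) h
      simpa [hx, mul_assoc] using this
    rw [this, map_one]
  have hfixq : ∀ z, psi x z = z → z = q := by
    intro z hz
    have : psi v (psi w⁻¹ z) = psi w⁻¹ z := by
      apply (psi w).injective
      rw [← psi_mul, ← psi_mul, ← hx, hz, ← psi_mul, mul_inv_cancel, psi_one]
    have := h2 _ this
    rw [hq, ← this, ← psi_mul, mul_inv_cancel, psi_one]
  have hpar : x ∈ RootBasis.par cs (RootBasis.walls BL ev (Phi q)) :=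
    (rootBasis.fix_iff cs hqD x).1 (by rw [← Phi_psi, hxq])
  -- elements of the stabiliser of q fixing the tile i are 1 or x
  have hstab : ∀ y ∈ RootBasis.par cs (RootBasis.walls BL ev (Phi q)), XX y i = i →
      y = 1 ∨ y = x := by
    intro y hy hyi
    have hyq : psi y q = q := by
      apply Phi_inj
      rw [Phi_psi]
      exact (rootBasis.fix_iff cs hqD y).2 hy
    have hmem : psi (w⁻¹ * y * w) ∈ Gam1 := by
      refine ⟨_, ?_, rfl⟩
      show XX (w⁻¹ * y * w) 0 = 0
      rw [map_mul, map_mul, map_inv, Equiv.Perm.mul_apply, Equiv.Perm.mul_apply, ← hi, hyi,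
        Equiv.Perm.inv_eq_iff_eq]
    have hfp : psi (w⁻¹ * y * w) p = p := by
      rw [psi_mul, psi_mul, ← hq, hyq, hwp]
    rcases h4 _ hmem hfp with h | h
    · left
      have h5 := psi_injective (h.trans (map_one psi).symm)
      have := congrArg (fun y => w * y * w⁻¹) h5
      simpa [mul_assoc] using this
    · right
      have h5 := psi_injective h
      rw [hx, ← h5]
      simp [mul_assoc]
  -- a reflection in the stabiliser gives a contradiction
  have hrefl : ∀ (l : List (Fin 3)) (r : Fin 3), r ≠ 2 →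
      (∀ s ∈ l, s ∈ RootBasis.walls BL ev (Phi q)) → r ∈ RootBasis.walls BL ev (Phi q) →
      ((l.map gx).prod * gx r * ((l.map gx).prod)⁻¹) i = i → False := by
    intro l r hr hl hrw hi'
    have hmem : cs.wordProd l * cs.simple r * (cs.wordProd l)⁻¹ ∈
        RootBasis.par cs (RootBasis.walls BL ev (Phi q)) :=
      (RootBasis.par cs _).mul_mem ((RootBasis.par cs _).mul_mem (wordProd_mem_par hl)
        (RootBasis.simple_mem_par cs hrw)) ((RootBasis.par cs _).inv_mem (wordProd_mem_par hl))
    have hXX : XX (cs.wordProd l * cs.simple r * (cs.wordProd l)⁻¹) i = i := by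
      rw [map_mul, map_mul, map_inv, XX_word, XX_simple]
      exact hi'
    rcases hstab _ hmem hXX with h | h
    · have h5 : cs.simple r = 1 := by
        have := congrArg (fun y => (cs.wordProd l)⁻¹ * y * cs.wordProd l) h
        simpa [mul_assoc] using this
      have h6 := congrArg XX h5
      rw [XX_simple, map_one] at h6
      have h7 : ∀ r : Fin 3, gx r ≠ 1 := by decide
      exact h7 r h6
    · exact cone_aux hr (cs.wordProd l) h.symm hfixq
  by_cases c0 : (0 : Fin 3) ∈ RootBasis.walls BL ev (Phi q) <;>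
  by_cases c1 : (1 : Fin 3) ∈ RootBasis.walls BL ev (Phi q) <;>
  by_cases c2 : (2 : Fin 3) ∈ RootBasis.walls BL ev (Phi q)
  · -- impossible
    have k0 : BL (Phi q) (ev 0) = 0 := c0
    have k1 : BL (Phi q) (ev 1) = 0 := c1
    have k2 : BL (Phi q) (ev 2) = 0 := c2
    have hy := q.im_pos
    have hy' := hy.ne'
    have h1 : del < alp := by unfold del alp; linarith [qq_pos]
    simp [BL_apply, Phi, ev, hy'] at k0 k1 k2
    field_simp at k1 k2
    rw [k0] at k1 k2
    have k3 : q.im ^ 2 = 1 := by linarith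
    rw [k3] at k2
    linarith
  · -- walls 0, 1
    have hl : ∀ s ∈ ([] : List (Fin 3)), s ∈ RootBasis.walls BL ev (Phi q) := by simp
    have r0 := hrefl [] 0 (by decide) hl c0
    have r1 := hrefl [] 1 (by decide) hl c1
    have hwalls : RootBasis.walls BL ev (Phi q) = {0, 1} := by
      ext s; fin_cases s
      · simpa using c0
      · simpa using c1
      · simpa using c2
    rw [hwalls] at hpar
    have hx' := mem_par01 hpar
    have key : ∀ j : Fin 8, (gx 0 j ≠ j) → (gx 1 j ≠ j) → (gx 0 * gx 1) j ≠ j := by decide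
    have a0 : gx 0 i ≠ i := fun h => r0 (by simpa using h)
    have a1 : gx 1 i ≠ i := fun h => r1 (by simpa using h)
    rcases hx' with h | h | h | h
    · exact hx1 h
    · rw [h, XX_simple] at hxi; exact a0 hxi
    · rw [h, XX_simple] at hxi; exact a1 hxi
    · rw [h, map_mul, XX_simple, XX_simple] at hxi; exact key i a0 a1 hxi
  · -- walls 0, 2
    obtain ⟨l, hl, hli⟩ := key02 i
    refine hrefl l 0 (by decide) (fun s hs => ?_) c0 hli
    have : s = 0 ∨ s = 2 := by
      have h9 : ∀ l ∈ ([[], [2], [0, 2], [2, 0, 2]] : List (List (Fin 3))), ∀ s ∈ l,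
        s = 0 ∨ s = 2 := by decide
      exact h9 l hl s hs
    rcases this with rfl | rfl
    · exact c0
    · exact c2
  · -- wall 0
    have hwalls : RootBasis.walls BL ev (Phi q) = {0} := by
      ext s; fin_cases s
      · simpa using c0
      · simpa using c1
      · simpa using c2
    rw [hwalls] at hpar
    rcases mem_par_single hpar with h | h
    · exact hx1 h
    · exact cone_aux (r := 0) (by decide) 1 (by simpa using h) hfixq
  · -- walls 1, 2
    obtain ⟨l, hl, hli⟩ := key12 i
    refine hrefl l 1 (by decide) (fun s hs => ?_) c1 hli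
    have : s = 2 := by
      have h9 : ∀ l ∈ ([[], [2]] : List (List (Fin 3))), ∀ s ∈ l, s = 2 := by decide
      exact h9 l hl s hs
    rw [this]
    exact c2
  · -- wall 1
    have hwalls : RootBasis.walls BL ev (Phi q) = {1} := by
      ext s; fin_cases s
      · simpa using c0
      · simpa using c1
      · simpa using c2
    rw [hwalls] at hpar
    rcases mem_par_single hpar with h | h
    · exact hx1 h
    · exact cone_aux (r := 1) (by decide) 1 (by simpa using h) hfixq
  · -- wall 2
    have hwalls : RootBasis.walls BL ev (Phi q) = {2} := by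
      ext s; fin_cases s
      · simpa using c0
      · simpa using c1
      · simpa using c2
    rw [hwalls] at hpar
    rcases mem_par_single hpar with h | h
    · exact hx1 h
    · rw [h, XX_simple] at hxi
      have : ∀ j : Fin 8, gx 2 j ≠ j := by decide
      exact this i hxi
  · -- no wall
    have hwalls : RootBasis.walls BL ev (Phi q) = ∅ := by
      ext s; fin_cases s
      · simpa using c0
      · simpa using c1
      · simpa using c2
    rw [hwalls] at hpar
    unfold RootBasis.par at hpar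
    rw [Set.image_empty, Subgroup.closure_empty, Subgroup.mem_bot] at hpar
    exact hx1 hpar

theorem not_isometric : ¬ Isometric Gam1 Gam2 := by
  rintro ⟨c, hc⟩
  exact not_hasCone_Gam1 (HasCone.of_conj (hc ▸ hasCone_Gam2))

end Iso180
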