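import Pool.Agent.Work.MP_180c68_gt.Pair
import Pool.Agent.Work.MP_180c68_gt.Lap

/-!
MP_180c68_gt: the two actions on eight tiles have an invertible intertwiner.
-/

set_option autoImplicit false

open UpperHalfPlane
open Pool.Agent.Work.MP_de2d29_al

namespace Iso180

theorem XX_w (l : List (Fin 3)) : XX (cs.wordProd l) = (l.map gx).prod := by
  induction l with
  | nil => simp
  | cons s l ih => rw [cs.wordProd_cons, map_mul, XX_simple, ih]; simp

theorem YY_w (l : List (Fin 3)) : YY (cs.wordProd l) = (l.map gy).prod := by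
  induction l with
  | nil => simp
  | cons s l ih => rw [cs.wordProd_cons, map_mul, YY_simple, ih]; simp

/-- words moving tile 0 to all tiles -/
def wx : Fin 8 → List (Fin 3) :=
  ![[], [2], [0, 2], [1, 2], [1, 0, 2], [2, 0, 2], [2, 1, 2], [2, 1, 0, 2]]

/-- words moving tile 0 to all tiles, second action -/
def wy : Fin 8 → List (Fin 3) :=
  ![[], [1], [2], [2, 1], [0, 2], [0, 2, 1], [2, 0, 2], [2, 0, 2, 1]]

set_option maxRecDepth 100000 in
theorem wx_spec : ∀ i, ((wx i).map gx).prod 0 = i := by decide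

set_option maxRecDepth 100000 in
theorem wy_spec : ∀ i, ((wy i).map gy).prod 0 = i := by decide

theorem XX_trans : ∀ i, ∃ w, XX w 0 = i := fun i => ⟨cs.wordProd (wx i), by rw [XX_w]; exact wx_spec i⟩

theorem YY_trans : ∀ i, ∃ w, YY w 0 = i := fun i => ⟨cs.wordProd (wy i), by rw [YY_w]; exact wy_spec i⟩

/-- the intertwiner -/
def TT : Fin 8 → Fin 8 → ℤ :=
  ![![-1, -1, -1, 1, 1, 0, -1, 0],
    ![-1, 1, 1, -1, -1, 0, -1, 0],
    ![-1, -1, 0, -1, 0, -1, 1, 1],
    ![1, -1, 0, -1, 0, 1, -1, -1],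
    ![-1, 0, -1, 0, -1, 1, 1, -1],
    ![1, 0, -1, 0, -1, -1, -1, 1],
    ![0, -1, 1, 1, -1, -1, 0, -1],
    ![0, 1, -1, -1, 1, -1, 0, -1]]

/-- eight times its inverse -/
def SS : Fin 8 → Fin 8 → ℤ :=
  ![![-2, -2, -1, 1, -1, 1, 0, 0],
    ![-1, 1, -2, -2, 0, 0, -1, 1],
    ![-1, 1, 0, 0, -2, -2, 1, -1],
    ![1, -1, -2, -2, 0, 0, 1, -1],
    ![1, -1, 0, 0, -2, -2, -1, 1],
    ![0, 0, -1, 1, 1, -1, -2, -2],
    ![-2, -2, 1, -1, 1, -1, 0, 0],
    ![0, 0, 1, -1, -1, 1, -2, -2]]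

set_option maxRecDepth 100000 in
theorem TT_inv : ∀ s i j, TT (gy s i) (gx s j) = TT i j := by decide

set_option maxRecDepth 100000 in
theorem TT_SS : ∀ i j, ∑ k, TT i k * SS k j = if i = j then 8 else 0 := by decide

theorem TT_inv' (w : W) : ∀ i j, TT (YY w i) (XX w j) = TT i j := by
  induction w using RootBasis.simple_induction cs with
  | one => intro i j; rw [map_one, map_one]; rfl
  | mul s w ih =>
    intro i j
    rw [map_mul, map_mul, YY_simple, XX_simple, Equiv.Perm.mul_apply, Equiv.Perm.mul_apply,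
      TT_inv, ih]

theorem isospectral_pair : Isospectral Gam1 Gam2 := by
  refine sunada psi psi_gl XX YY 0 0 XX_trans YY_trans (fun i j => (TT i j : ℝ))
    (fun i j => (SS i j : ℝ) / 8) (fun w i j => ?_) ?_
  · show ((TT (YY w i) (XX w j) : ℤ) : ℝ) = (TT i j : ℝ)
    rw [TT_inv']
  · ext i j
    rw [Matrix.mul_apply]
    have h := TT_SS i j
    have h2 : ∑ k, (TT i k : ℝ) * ((SS k j : ℝ) / 8) = ((∑ k, TT i k * SS k j : ℤ) : ℝ) / 8 := by
      push_cast
      rw [Finset.sum_div]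
      refine Finset.sum_congr rfl fun k _ => ?_
      ring
    rw [h2, h, Matrix.one_apply]
    split_ifs <;> norm_num

end Iso180
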