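import Pool.Agent.Work.MP_180c68_gt.Defs
import Pool.Agent.Work.MP_180c68_gt.Basic

/-!
MP_180c68_gt: cocompactness, discreteness and commensurability.
-/

set_option autoImplicit false

open UpperHalfPlane MeasureTheory Metric
open scoped MatrixGroups ContDiff ComplexConjugate

namespace Iso180

/-- A cocompact subgroup of a discrete group has finite index. -/
theorem relIndex_of_cocompact {L D : Subgroup (ℍ ≃ᵢ ℍ)} (h : L ≤ D) (hD : Discrete D)
    (hL : Cocompact L) : L.relIndex D ≠ 0 := by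
  obtain ⟨K, hK, hcov⟩ := hL
  have hK' : IsCompact (insert I K) := hK.insert I
  have hfin := hD _ hK'
  have : Finite {g : ℍ ≃ᵢ ℍ | g ∈ D ∧ ((fun z => g z) '' (insert I K) ∩ (insert I K)).Nonempty} :=
    hfin
  let f : {g : ℍ ≃ᵢ ℍ | g ∈ D ∧ ((fun z => g z) '' (insert I K) ∩ (insert I K)).Nonempty} →
      D ⧸ L.subgroupOf D := fun s => QuotientGroup.mk ⟨(s : ℍ ≃ᵢ ℍ)⁻¹, D.inv_mem s.2.1⟩
  have hf : Function.Surjective f := by
    intro q
    obtain ⟨⟨d, hd⟩, rfl⟩ := QuotientGroup.mk_surjective q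
    obtain ⟨l, hl, hlK⟩ := hcov (d⁻¹ I)
    have hmem : l * d⁻¹ ∈ D := D.mul_mem (h hl) (D.inv_mem hd)
    refine ⟨⟨l * d⁻¹, hmem, (l * d⁻¹) I, ⟨I, Set.mem_insert _ _, rfl⟩,
      Set.mem_insert_of_mem _ hlK⟩, ?_⟩
    show QuotientGroup.mk _ = QuotientGroup.mk _
    rw [QuotientGroup.eq, Subgroup.mem_subgroupOf]
    show ((l * d⁻¹)⁻¹)⁻¹ * d ∈ L
    rw [inv_inv, inv_mul_cancel_right]
    exact hl
  have : Finite (D ⧸ L.subgroupOf D) := Finite.of_surjective f hf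
  exact Subgroup.index_ne_zero_of_finite

/-- A subgroup of finite index of a cocompact group is cocompact. -/
theorem cocompact_of_relIndex {L G : Subgroup (ℍ ≃ᵢ ℍ)} (hG : Cocompact G)
    (hi : L.relIndex G ≠ 0) : Cocompact L := by
  obtain ⟨K, hK, hcov⟩ := hG
  have hi' : (L.subgroupOf G).index ≠ 0 := hi
  have : (L.subgroupOf G).FiniteIndex := ⟨hi'⟩
  have : Finite (G ⧸ L.subgroupOf G) := Subgroup.finite_quotient_of_finiteIndex
  refine ⟨⋃ q : G ⧸ L.subgroupOf G, (fun z => ((q.out : G) : ℍ ≃ᵢ ℍ)⁻¹ z) '' K,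
    isCompact_iUnion fun q => hK.image ((q.out : G) : ℍ ≃ᵢ ℍ)⁻¹.continuous, fun z => ?_⟩
  obtain ⟨g, hg, hgz⟩ := hcov z
  have h1 := QuotientGroup.out_eq' (QuotientGroup.mk (s := L.subgroupOf G) ⟨g, hg⟩)
  rw [QuotientGroup.eq, Subgroup.mem_subgroupOf] at h1
  refine ⟨_, h1, Set.mem_iUnion.2 ⟨QuotientGroup.mk (s := L.subgroupOf G) ⟨g, hg⟩, g z, hgz, rfl⟩⟩

theorem glHom_mem_sl {g : GL (Fin 2) ℝ} (hg : 0 < g.det.val) : glHom g ∈ slHom.range := by
  have hd : 0 < g.val 0 0 * g.val 1 1 - g.val 0 1 * g.val 1 0 := by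
    have := hg
    rwa [Matrix.GeneralLinearGroup.val_det_apply, Matrix.det_fin_two] at this
  set s : ℝ := Real.sqrt (g.val 0 0 * g.val 1 1 - g.val 0 1 * g.val 1 0) with hs
  have hs0 : s ≠ 0 := (Real.sqrt_pos.2 hd).ne'
  have hs2 : s * s = g.val 0 0 * g.val 1 1 - g.val 0 1 * g.val 1 0 := Real.mul_self_sqrt hd.le
  let M : SL(2, ℝ) := ⟨!![g.val 0 0 / s, g.val 0 1 / s; g.val 1 0 / s, g.val 1 1 / s], by
    rw [Matrix.det_fin_two_of]
    field_simp
    nlinarith⟩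
  refine ⟨M, ?_⟩
  ext1 z
  rw [slHom_apply, glHom_apply]
  apply UpperHalfPlane.ext
  rw [coe_specialLinearGroup_apply, coe_smul_of_det_pos hg, num, denom]
  have h1 : (g.val 1 0 : ℂ) * z + (g.val 1 1 : ℂ) ≠ 0 := denom_ne_zero g z
  have hs0' : (s : ℂ) ≠ 0 := by exact_mod_cast hs0
  show (((g.val 0 0 / s : ℝ) : ℂ) * z + ((g.val 0 1 / s : ℝ) : ℂ)) /
    (((g.val 1 0 / s : ℝ) : ℂ) * z + ((g.val 1 1 / s : ℝ) : ℂ)) = _
  push_cast
  have e1 : (g.val 0 0 : ℂ) / s * z + (g.val 0 1 : ℂ) / s =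
    ((g.val 0 0 : ℂ) * z + g.val 0 1) / s := by ring
  have e2 : (g.val 1 0 : ℂ) / s * z + (g.val 1 1 : ℂ) / s =
    ((g.val 1 0 : ℂ) * z + g.val 1 1) / s := by ring
  rw [e1, e2, div_div_div_cancel_right₀ hs0']

theorem det_RA' : RA.det.val = -1 := by
  rw [Matrix.GeneralLinearGroup.val_det_apply]
  show Matrix.det !![(-1 : ℝ), 0; 0, 1] = -1
  rw [Matrix.det_fin_two_of]
  norm_num

theorem relIndex_sl_gl : slHom.range.relIndex glHom.range ∣ 2 := by
  rw [Subgroup.relIndex_dvd_two_iff]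
  refine ⟨glHom RA, ⟨RA, rfl⟩, ?_⟩
  rintro _ ⟨g, rfl⟩
  rcases lt_or_gt_of_ne g.det_ne_zero with h | h
  · left
    rw [← map_mul]
    apply glHom_mem_sl
    rw [map_mul, Units.val_mul, det_RA', mul_neg_one, neg_pos]
    exact h
  · right
    exact glHom_mem_sl h

theorem relIndex_sl {G : Subgroup (ℍ ≃ᵢ ℍ)} (h : G ≤ glHom.range) :
    (G ⊓ slHom.range).relIndex G ≠ 0 := by
  rw [Subgroup.inf_relIndex_left]
  intro h0
  have := Subgroup.relIndex_eq_zero_of_le_right h h0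
  have h2 := relIndex_sl_gl
  rw [this] at h2
  norm_num at h2

/-- The orientation preserving part of a cocompact group which has a discrete orientation
preserving subgroup of finite index is commensurable with that subgroup. -/
theorem commens {G P : Subgroup (ℍ ≃ᵢ ℍ)} (hc : Cocompact G) (hP : Discrete P)
    (hPs : P ≤ slHom.range) (hi : P.relIndex G ≠ 0) :
    Subgroup.Commensurable (G ⊓ slHom.range) P := by
  have h1 : (G ⊓ P).relIndex G ≠ 0 := by rwa [Subgroup.inf_relIndex_left]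
  have h2 : Cocompact (G ⊓ P) := cocompact_of_relIndex hc h1
  have h3 : (G ⊓ P).relIndex P ≠ 0 := relIndex_of_cocompact inf_le_right hP h2
  have h4 : (G ⊓ slHom.range) ⊓ P = G ⊓ P := by
    rw [inf_assoc, inf_eq_right.2 hPs]
  refine ⟨?_, ?_⟩
  · rw [← Subgroup.inf_relIndex_right, h4]
    exact h3
  · intro h0
    exact hi (Subgroup.relIndex_eq_zero_of_le_right inf_le_left h0)

end Iso180
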