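import Pool.Agent.Work.MP_180c68_gt.QDat

/-!
MP_180c68_gt: the image of the norm one units of the order has finite relative index in the
reflection group of the triangle `(2, 4, 8)`.
-/

set_option autoImplicit false

open UpperHalfPlane MeasureTheory Metric
open scoped MatrixGroups ContDiff ComplexConjugate

namespace Iso180

theorem imageO_le {K : Type} [Field K] {a b : K}
    (ρ : QuaternionAlgebra K a 0 b →+* Matrix (Fin 2) (Fin 2) ℝ)
    (O : Subring (QuaternionAlgebra K a 0 b)) : imageO ρ O ≤ slHom.range := by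
  rintro _ ⟨A, -, rfl⟩
  exact ⟨A, rfl⟩

theorem slHom_eq_glHom (A : SL(2, ℝ)) :
    slHom A = glHom (Matrix.SpecialLinearGroup.toGL A) := by
  ext1 z
  rw [slHom_apply, glHom_apply]
  apply UpperHalfPlane.ext
  have hpos : 0 < (Matrix.SpecialLinearGroup.toGL A).det.val := by simp
  rw [coe_specialLinearGroup_apply, coe_smul_of_det_pos hpos]
  rfl

theorem mem_imageO_of {A : SL(2, ℝ)} {q : BB} (h1 : q ∈ OO) (h2 : star q ∈ OO)
    (h3 : q * star q = 1) (h4 : star q * q = 1) (hA : A.val = rhoB q) :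
    slHom A ∈ imageO rhoB OO := by
  refine ⟨A, ⟨⟨q, star q, h3, h4⟩, ⟨h1, h2, h3⟩, ?_⟩, rfl⟩
  apply Units.ext
  exact hA.symm

/-! ### The three reflections -/

theorem glHom_neg (g : GL (Fin 2) ℝ) : glHom (-g) = glHom g := by
  ext1 z
  exact UpperHalfPlane.neg_smul g z

theorem RA_mul : RA * RA = 1 := by
  ext i j; fin_cases i <;> fin_cases j <;>
    simp [RA, Matrix.mul_apply, Fin.sum_univ_two, Matrix.GeneralLinearGroup.mkOfDetNeZero]

theorem RB_mul : RB * RB = 1 := by
  ext i j; fin_cases i <;> fin_cases j <;>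
    simp [RB, Matrix.mul_apply, Fin.sum_univ_two, Matrix.GeneralLinearGroup.mkOfDetNeZero]

theorem RC_mul : RC * RC = 1 := by
  have := kap_alp_del
  ext i j; fin_cases i <;> fin_cases j <;>
    simp [RC, Matrix.mul_apply, Fin.sum_univ_two, Matrix.GeneralLinearGroup.mkOfDetNeZero] <;>
    nlinarith

theorem RA_RB : RA * RB = -(RB * RA) := by
  ext i j; fin_cases i <;> fin_cases j <;>
    simp [RA, RB, Matrix.mul_apply, Fin.sum_univ_two, Matrix.GeneralLinearGroup.mkOfDetNeZero]

theorem ra_sq : ra * ra = 1 := by rw [ra, ← map_mul, RA_mul, map_one]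

theorem rb_sq : rb * rb = 1 := by rw [rb, ← map_mul, RB_mul, map_one]

theorem rc_sq : rc * rc = 1 := by rw [rc, ← map_mul, RC_mul, map_one]

theorem ra_rb : ra * rb = rb * ra := by
  rw [ra, rb, ← map_mul, ← map_mul, RA_RB, glHom_neg]

/-! ### The two elements of the order -/

/-- the element `i x i⁻¹` -/
def xO' : BB := mkO (-sK) (-1) (-1) 0

theorem xO'_mem : xO' ∈ OO :=
  ⟨-sK, -1, -1, 0, sK_int.neg, isIntegral_one.neg, isIntegral_one.neg, isIntegral_zero, rfl⟩

theorem star_xO : star xO = mkO (-sK) 0 (-1) 0 := by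
  apply QuaternionAlgebra.ext <;> simp [xO, mkO] <;> ring

theorem star_xO_mem : star xO ∈ OO := by
  rw [star_xO]
  exact ⟨-sK, 0, -1, 0, sK_int.neg, isIntegral_zero, isIntegral_one.neg, isIntegral_zero, rfl⟩

theorem star_xO' : star xO' = mkO 0 1 1 0 := by
  apply QuaternionAlgebra.ext <;> simp [xO', mkO] <;> ring

theorem star_xO'_mem : star xO' ∈ OO := by
  rw [star_xO']
  exact ⟨0, 1, 1, 0, isIntegral_zero, isIntegral_one, isIntegral_one, isIntegral_zero, rfl⟩

theorem mkO_one : mkO 1 0 0 0 = 1 := by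
  apply QuaternionAlgebra.ext <;> simp [mkO]

theorem xO_norm : xO * star xO = 1 := by
  rw [star_xO, xO, mkO_mul, ← mkO_one]
  congr 1 <;> ring

theorem xO_norm' : star xO * xO = 1 := by
  rw [star_xO, xO, mkO_mul, ← mkO_one]
  congr 1 <;> ring

theorem xO'_norm : xO' * star xO' = 1 := by
  rw [star_xO', xO', mkO_mul, ← mkO_one, aK]
  congr 1 <;> ring

theorem xO'_norm' : star xO' * xO' = 1 := by
  rw [star_xO', xO', mkO_mul, ← mkO_one, aK]
  congr 1 <;> ring

theorem rhoB_xO : rhoB xO = !![-del, -kap; kap, -alp] := by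
  ext i j; fin_cases i <;> fin_cases j
  · show vP (0 - sK * 1 / 2 + (2 + sK) * 0 / 2) + qq * vP (1 / 2) = -del
    simp only [map_add, map_sub, map_mul, map_div₀, map_ofNat, map_zero, map_one, vP_sK, del]
    ring
  · show 2 * kap * vP (0 - 1 / 2 - sK * 0 / 2) - 2 * kap * qq * vP (0 / 2) = -kap
    simp only [map_add, map_sub, map_mul, map_div₀, map_ofNat, map_zero, map_one, vP_sK]
    ring
  · show -(2 * kap * vP (0 - 1 / 2 - sK * 0 / 2)) - 2 * kap * qq * vP (0 / 2) = kap
    simp only [map_add, map_sub, map_mul, map_div₀, map_ofNat, map_zero, map_one, vP_sK]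
    ring
  · show vP (0 - sK * 1 / 2 + (2 + sK) * 0 / 2) - qq * vP (1 / 2) = -alp
    simp only [map_add, map_sub, map_mul, map_div₀, map_ofNat, map_zero, map_one, vP_sK, alp]
    ring

theorem rhoB_xO' : rhoB xO' = !![-alp, -kap; kap, -del] := by
  ext i j; fin_cases i <;> fin_cases j
  · show vP (-sK - sK * (-1) / 2 + (2 + sK) * 0 / 2) + qq * vP (-1 / 2) = -alp
    simp only [map_add, map_sub, map_mul, map_div₀, map_ofNat, map_zero, map_one, map_neg, vP_sK,
      alp]
    ring
  · show 2 * kap * vP (-1 - (-1) / 2 - sK * 0 / 2) - 2 * kap * qq * vP (0 / 2) = -kap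
    simp only [map_add, map_sub, map_mul, map_div₀, map_ofNat, map_zero, map_one, map_neg, vP_sK]
    ring
  · show -(2 * kap * vP (-1 - (-1) / 2 - sK * 0 / 2)) - 2 * kap * qq * vP (0 / 2) = kap
    simp only [map_add, map_sub, map_mul, map_div₀, map_ofNat, map_zero, map_one, map_neg, vP_sK]
    ring
  · show vP (-sK - sK * (-1) / 2 + (2 + sK) * 0 / 2) - qq * vP (-1 / 2) = -del
    simp only [map_add, map_sub, map_mul, map_div₀, map_ofNat, map_zero, map_one, map_neg, vP_sK,
      del]
    ring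

/-- the matrix of `x` -/
noncomputable def MX : SL(2, ℝ) := ⟨!![-del, -kap; kap, -alp], by
  rw [Matrix.det_fin_two_of]; have := kap_alp_del; nlinarith⟩

/-- the matrix of `i x i⁻¹` -/
noncomputable def MX' : SL(2, ℝ) := ⟨!![-alp, -kap; kap, -del], by
  rw [Matrix.det_fin_two_of]; have := kap_alp_del; nlinarith⟩

theorem MX_mem : slHom MX ∈ imageO rhoB OO :=
  mem_imageO_of xO_mem star_xO_mem xO_norm xO_norm' rhoB_xO.symm

theorem MX'_mem : slHom MX' ∈ imageO rhoB OO :=
  mem_imageO_of xO'_mem star_xO'_mem xO'_norm xO'_norm' rhoB_xO'.symm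

theorem rb_rc : rb * rc = slHom MX := by
  rw [rb, rc, ← map_mul, slHom_eq_glHom]
  congr 1
  ext i j; fin_cases i <;> fin_cases j <;>
    simp [RB, RC, MX, Matrix.mul_apply, Fin.sum_univ_two,
      Matrix.GeneralLinearGroup.mkOfDetNeZero]

theorem conj_MX : (ra * rb) * slHom MX = slHom MX' * (ra * rb) := by
  rw [ra, rb, slHom_eq_glHom, slHom_eq_glHom, ← map_mul, ← map_mul, ← map_mul]
  congr 1
  ext i j; fin_cases i <;> fin_cases j <;>
    simp [RA, RB, MX, MX', Matrix.mul_apply, Fin.sum_univ_two,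
      Matrix.GeneralLinearGroup.mkOfDetNeZero]

/-! ### The finite index -/

theorem cosets {g : ℍ ≃ᵢ ℍ} (hg : g ∈ Gam0) :
    g ∈ imageO rhoB OO ∨ ra * g ∈ imageO rhoB OO ∨ rb * g ∈ imageO rhoB OO ∨
      rb * ra * g ∈ imageO rhoB OO := by
  set P := imageO rhoB OO with hP
  have ha := ra_sq
  have hb := rb_sq
  have hc := rc_sq
  have hab := ra_rb
  have iva : ra⁻¹ = ra := inv_eq_of_mul_eq_one_right ha
  have ivb : rb⁻¹ = rb := inv_eq_of_mul_eq_one_right hb
  have ivc : rc⁻¹ = rc := inv_eq_of_mul_eq_one_right hc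
  -- the conjugates of `p = rb * rc`
  have p1 : rb * rc ∈ P := by rw [rb_rc]; exact MX_mem
  have p2 : rc * rb ∈ P := by
    have := P.inv_mem p1
    rwa [mul_inv_rev, ivb, ivc] at this
  have p3 : rb * ra * (rb * rc) * (rb * ra) ∈ P := by
    have : rb * ra * (rb * rc) * (rb * ra) = slHom MX' := by
      rw [← hab, rb_rc, conj_MX, mul_assoc, ← mul_assoc (ra * rb), mul_assoc ra rb ra, ← hab,
        ← mul_assoc ra, ha, one_mul, hb, mul_one]
    rw [this]
    exact MX'_mem
  have p4 : ra * (rb * rc) * ra ∈ P := by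
    have := P.inv_mem p3
    have e : (rb * ra * (rb * rc) * (rb * ra))⁻¹ = ra * (rb * rc) * ra := by
      simp only [mul_inv_rev, iva, ivb, ivc]
      rw [hab]
      simp only [mul_assoc]
      rw [← mul_assoc rb rb ra, hb, one_mul, ← mul_assoc rb ra, ← hab, mul_assoc]
    rwa [e] at this
  have yy : rb * ra * (rb * ra) = 1 := by
    rw [mul_assoc, ← mul_assoc ra rb ra, hab, mul_assoc rb ra ra, ha, mul_one, hb]
  have yb : rb * ra * rb = ra := by rw [mul_assoc, hab, ← mul_assoc, hb, one_mul]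
  have step : ∀ x ∈ ({ra, rb, rc} : Set (ℍ ≃ᵢ ℍ)), ∀ y : ℍ ≃ᵢ ℍ,
      (y ∈ P ∨ ra * y ∈ P ∨ rb * y ∈ P ∨ rb * ra * y ∈ P) →
      (x * y ∈ P ∨ ra * (x * y) ∈ P ∨ rb * (x * y) ∈ P ∨ rb * ra * (x * y) ∈ P) := by
    intro x hx y hy
    rcases hx with rfl | rfl | rfl
    · rcases hy with h | h | h | h
      · right; left; rwa [← mul_assoc, ha, one_mul]
      · left; exact h
      · right; right; right
        rwa [mul_assoc, ← mul_assoc ra ra, ha, one_mul]
      · right; right; left
        rwa [← mul_assoc]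
    · rcases hy with h | h | h | h
      · right; right; left; rwa [← mul_assoc, hb, one_mul]
      · right; right; right
        rwa [← mul_assoc, mul_assoc rb ra rb, hab, ← mul_assoc rb rb, hb, one_mul]
      · left; exact h
      · right; left
        rwa [← mul_assoc, hab]
    · rcases hy with h | h | h | h
      · right; right; left
        rw [← mul_assoc]
        exact P.mul_mem p1 h
      · right; right; right
        have : rb * ra * (rc * y) = (ra * (rb * rc) * ra) * (ra * y) := by
          simp only [mul_assoc]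
          rw [← mul_assoc ra ra y, ha, one_mul, ← mul_assoc ra rb, hab, mul_assoc rb ra]
        rw [this]
        exact P.mul_mem p4 h
      · left
        have : rc * y = (rc * rb) * (rb * y) := by
          simp only [mul_assoc]
          rw [← mul_assoc rb rb y, hb, one_mul]
        rw [this]
        exact P.mul_mem p2 h
      · right; left
        have : ra * (rc * y) = (rb * ra * (rb * rc) * (rb * ra)) * (rb * ra * y) := by
          have e : (rb * ra * (rb * rc) * (rb * ra)) * (rb * ra * y) =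
              (rb * ra * rb) * rc * (rb * ra * (rb * ra)) * y := by simp only [mul_assoc]
          rw [e, yb, yy, mul_one, mul_assoc]
        rw [this]
        exact P.mul_mem p3 h
  refine Subgroup.closure_induction_left (p := fun g _ => g ∈ P ∨ ra * g ∈ P ∨ rb * g ∈ P ∨
    rb * ra * g ∈ P) (Or.inl P.one_mem) ?_ ?_ hg
  · intro x hx y _ h
    exact step x hx y h
  · intro x hx y _ h
    have : x⁻¹ = x := by
      rcases hx with rfl | rfl | rfl
      · exact iva
      · exact ivb
      · exact ivc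
    rw [this]
    exact step x hx y h

theorem ra_mem : ra ∈ Gam0 := Subgroup.subset_closure (Or.inl rfl)

theorem rb_mem : rb ∈ Gam0 := Subgroup.subset_closure (Or.inr (Or.inl rfl))

/-- The norm one units of the order have finite index in the reflection group (up to
commensurability). -/
theorem relIndex_imageO : (imageO rhoB OO).relIndex Gam0 ≠ 0 := by
  let a' : Gam0 := ⟨ra, ra_mem⟩
  let b' : Gam0 := ⟨rb, rb_mem⟩
  have iva : ra⁻¹ = ra := inv_eq_of_mul_eq_one_right ra_sq
  have ivb : rb⁻¹ = rb := inv_eq_of_mul_eq_one_right rb_sq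
  let f : Fin 4 → Gam0 ⧸ (imageO rhoB OO).subgroupOf Gam0 :=
    ![QuotientGroup.mk 1, QuotientGroup.mk a', QuotientGroup.mk b', QuotientGroup.mk (a' * b')]
  have hf : Function.Surjective f := by
    intro q
    obtain ⟨⟨g, hg⟩, rfl⟩ := QuotientGroup.mk_surjective q
    rcases cosets hg with h | h | h | h
    · refine ⟨0, ?_⟩
      show QuotientGroup.mk _ = QuotientGroup.mk _
      rw [QuotientGroup.eq, Subgroup.mem_subgroupOf]
      show (1 : ℍ ≃ᵢ ℍ)⁻¹ * g ∈ _
      rwa [inv_one, one_mul]
    · refine ⟨1, ?_⟩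
      show QuotientGroup.mk _ = QuotientGroup.mk _
      rw [QuotientGroup.eq, Subgroup.mem_subgroupOf]
      show ra⁻¹ * g ∈ _
      rwa [iva]
    · refine ⟨2, ?_⟩
      show QuotientGroup.mk _ = QuotientGroup.mk _
      rw [QuotientGroup.eq, Subgroup.mem_subgroupOf]
      show rb⁻¹ * g ∈ _
      rwa [ivb]
    · refine ⟨3, ?_⟩
      show QuotientGroup.mk _ = QuotientGroup.mk _
      rw [QuotientGroup.eq, Subgroup.mem_subgroupOf]
      show (ra * rb)⁻¹ * g ∈ _
      rwa [mul_inv_rev, iva, ivb]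
  have : Finite (Gam0 ⧸ (imageO rhoB OO).subgroupOf Gam0) := Finite.of_surjective f hf
  exact Subgroup.index_ne_zero_of_finite

end Iso180
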