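import Pool.Agent.Work.MP_180c68_gt.QCl
import Pool.Agent.Work.MP_180c68_gt.QComm
import Pool.Agent.Work.MP_180c68_gt.QNorm
import Pool.Agent.Work.MP_180c68_gt.Perm
import Pool.Agent.Work.MP_180c68_gt.Fund
import Pool.Agent.Work.MP_180c68_gt.NonConj
import Pool.Agent.Work.MP_180c68_gt.HasAreaU

/-!
MP_180c68_gt: main theorem.
-/

set_option autoImplicit false

open UpperHalfPlane MeasureTheory
open scoped MatrixGroups ContDiff ComplexConjugate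

namespace Iso180

theorem arithmetic_of {Γ : Subgroup (ℍ ≃ᵢ ℍ)} (h : Γ ≤ Gam0) (hc : Cocompact Γ) :
    Arithmetic Γ := by
  refine ⟨KK, inferInstance, nfKK, totRealKK, aK, bK, vP, rhoB, OO, 1, aK_ne, bK_ne,
    rhoB_algebraMap, ?_, OO_int, OO_fg, OO_span, ?_⟩
  · intro v' hv'
    rcases emb_cases v' with rfl | rfl
    · exact absurd rfl hv'
    · exact vM_neg
  · have h1 : (imageO rhoB OO).map (MulAut.conj (1 : ℍ ≃ᵢ ℍ)).toMonoidHom = imageO rhoB OO := by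
      have : (MulAut.conj (1 : ℍ ≃ᵢ ℍ)).toMonoidHom = MonoidHom.id _ := by
        rw [map_one]; rfl
      rw [this, Subgroup.map_id]
    rw [h1]
    refine commens hc discrete_imageO (imageO_le _ _) ?_
    exact fun h0 => relIndex_imageO (Subgroup.relIndex_eq_zero_of_le_right h h0)

theorem Gam1_le : Gam1 ≤ Gam0 := by
  rw [← psi_range]
  rintro _ ⟨w, -, rfl⟩
  exact ⟨w, rfl⟩

theorem Gam2_le : Gam2 ≤ Gam0 := by
  rw [← psi_range]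
  rintro _ ⟨w, -, rfl⟩
  exact ⟨w, rfl⟩

theorem discrete_of {Γ : Subgroup (ℍ ≃ᵢ ℍ)} (h : Γ ≤ Gam0) : Discrete Γ :=
  Discrete.mono h (psi_range ▸ discrete_range)

theorem Gam0_le : Gam0 ≤ glHom.range := by
  rw [Gam0, Subgroup.closure_le]
  rintro g (rfl | rfl | rfl)
  · exact ⟨RA, rfl⟩
  · exact ⟨RB, rfl⟩
  · exact ⟨RC, rfl⟩

theorem good_of {Γ : Subgroup (ℍ ≃ᵢ ℍ)} (h : Γ ≤ Gam0) (hc : Cocompact Γ)
    (ha : HasArea Γ (((8 : ℕ) : ℝ) * (Real.pi / 8))) :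
    Discrete Γ ∧ Cocompact Γ ∧ Arithmetic Γ ∧ HasArea Γ Real.pi ∧
      ∀ A : ℝ, 0 ≤ A → HasArea Γ A → A = Real.pi := by
  have e : ((8 : ℕ) : ℝ) * (Real.pi / 8) = Real.pi := by push_cast; ring
  rw [e] at ha
  exact ⟨discrete_of h, hc, arithmetic_of h hc, ha, fun A hA hB =>
    HasArea.unique_pos (discrete_of h) (h.trans Gam0_le) hB ha hA Real.pi_pos.le⟩

theorem main' : ∃ Γ₁ Γ₂ : Subgroup (ℍ ≃ᵢ ℍ),
    (Discrete Γ₁ ∧ Cocompact Γ₁ ∧ Arithmetic Γ₁ ∧ HasArea Γ₁ Real.pi ∧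
      ∀ A : ℝ, 0 ≤ A → HasArea Γ₁ A → A = Real.pi) ∧
    (Discrete Γ₂ ∧ Cocompact Γ₂ ∧ Arithmetic Γ₂ ∧ HasArea Γ₂ Real.pi ∧
      ∀ A : ℝ, 0 ≤ A → HasArea Γ₂ A → A = Real.pi) ∧
    Isospectral Γ₁ Γ₂ ∧ ¬ Isometric Γ₁ Γ₂ :=
  ⟨Gam1, Gam2, good_of Gam1_le (cocompact_stab XX 0 XX_trans) (hasArea_stab XX 0 XX_trans),
    good_of Gam2_le (cocompact_stab YY 0 YY_trans) (hasArea_stab YY 0 YY_trans),
    isospectral_pair, not_isometric⟩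

end Iso180
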