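import Pool.Agent.Work.MP_180c68_gt.Tess

/-!
MP_180c68_gt: the two subgroups of index 8.
-/

set_option autoImplicit false

open UpperHalfPlane

namespace Iso180

/-- images of the generators in the first action on eight tiles -/
def gx : Fin 3 → Equiv.Perm (Fin 8) :=
  ![Equiv.swap 1 2 * Equiv.swap 3 4 * Equiv.swap 5 7,
    Equiv.swap 1 3 * Equiv.swap 2 4,
    Equiv.swap 0 1 * Equiv.swap 2 5 * Equiv.swap 3 6 * Equiv.swap 4 7]

/-- images of the generators in the second action on eight tiles -/
def gy : Fin 3 → Equiv.Perm (Fin 8) :=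
  ![Equiv.swap 2 4 * Equiv.swap 3 5 * Equiv.swap 6 7,
    Equiv.swap 0 1 * Equiv.swap 6 7,
    Equiv.swap 0 2 * Equiv.swap 1 3 * Equiv.swap 4 6 * Equiv.swap 5 7]

set_option maxRecDepth 100000 in
theorem gx_liftable : M3.IsLiftable gx := by
  intro i j
  fin_cases i <;> fin_cases j <;> decide

set_option maxRecDepth 100000 in
theorem gy_liftable : M3.IsLiftable gy := by
  intro i j
  fin_cases i <;> fin_cases j <;> decide

/-- first action on eight tiles -/
noncomputable def XX : W →* Equiv.Perm (Fin 8) := cs.lift ⟨gx, gx_liftable⟩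

/-- second action on eight tiles -/
noncomputable def YY : W →* Equiv.Perm (Fin 8) := cs.lift ⟨gy, gy_liftable⟩

theorem XX_simple (s : Fin 3) : XX (cs.simple s) = gx s := cs.lift_apply_simple gx_liftable s

theorem YY_simple (s : Fin 3) : YY (cs.simple s) = gy s := cs.lift_apply_simple gy_liftable s

/-- the first group -/
noncomputable def Gam1 : Subgroup (ℍ ≃ᵢ ℍ) :=
  ((MulAction.stabilizer (Equiv.Perm (Fin 8)) (0 : Fin 8)).comap XX).map psi

/-- the second group -/
noncomputable def Gam2 : Subgroup (ℍ ≃ᵢ ℍ) :=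
  ((MulAction.stabilizer (Equiv.Perm (Fin 8)) (0 : Fin 8)).comap YY).map psi

end Iso180
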