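import Pool.Agent.Work.MP_180c68_gt.QDat

/-!
MP_180c68_gt: `OO` is an order, and its norm-one units act properly discontinuously.
-/

set_option autoImplicit false

open UpperHalfPlane MeasureTheory
open scoped MatrixGroups ContDiff ComplexConjugate

namespace Iso180

theorem OO_int (k : NumberField.RingOfIntegers KK) : algebraMap KK BB k ∈ OO := by
  refine ⟨k, 0, 0, 0, k.2, isIntegral_zero, isIntegral_zero, isIntegral_zero, ?_⟩
  apply QuaternionAlgebra.ext <;> simp [mkO]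

/-- the coordinate map -/
def coordHom : (NumberField.RingOfIntegers KK × NumberField.RingOfIntegers KK ×
    NumberField.RingOfIntegers KK × NumberField.RingOfIntegers KK) →+ BB where
  toFun p := mkO p.1 p.2.1 p.2.2.1 p.2.2.2
  map_zero' := by apply QuaternionAlgebra.ext <;> simp [mkO]
  map_add' p q := by
    apply QuaternionAlgebra.ext <;> simp [mkO] <;> ring

theorem OO_eq_range : OO.toAddSubgroup = coordHom.range := by
  ext q
  constructor
  · rintro ⟨c0, c1, c2, c3, h0, h1, h2, h3, rfl⟩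
    exact ⟨(⟨c0, h0⟩, ⟨c1, h1⟩, ⟨c2, h2⟩, ⟨c3, h3⟩), rfl⟩
  · rintro ⟨⟨c0, c1, c2, c3⟩, rfl⟩
    exact ⟨c0, c1, c2, c3, c0.2, c1.2, c2.2, c3.2, rfl⟩

theorem OO_fg : OO.toAddSubgroup.FG := by
  rw [OO_eq_range]
  have : AddGroup.FG (NumberField.RingOfIntegers KK × NumberField.RingOfIntegers KK ×
    NumberField.RingOfIntegers KK × NumberField.RingOfIntegers KK) :=
    Module.Finite.iff_addGroup_fg.1 inferInstance
  exact (AddGroup.fg_iff_addSubgroup_fg _).1
    (AddGroup.fg_of_surjective coordHom.rangeRestrict_surjective)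

theorem OO_span : Submodule.span KK (OO : Set BB) = ⊤ := by
  rw [eq_top_iff]
  rintro q -
  have h1 : (1 : BB) ∈ Submodule.span KK (OO : Set BB) := Submodule.subset_span OO.one_mem
  have h2 : iO ∈ Submodule.span KK (OO : Set BB) := Submodule.subset_span iO_mem
  have h3 : xO ∈ Submodule.span KK (OO : Set BB) := Submodule.subset_span xO_mem
  have h4 : iO * xO ∈ Submodule.span KK (OO : Set BB) :=
    Submodule.subset_span (OO.mul_mem iO_mem xO_mem)
  have : q = (q.re + sK * q.imJ - (2 + sK) * q.imK) • (1 : BB) +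
      (q.imI + q.imJ + sK * q.imK) • iO + (2 * q.imJ) • xO + (2 * q.imK) • (iO * xO) := by
    have e : iO * xO = mkO 0 0 0 1 := by
      rw [iO, xO, mkO_mul]; simp
    rw [e]
    apply QuaternionAlgebra.ext
    · simp [mkO, iO, xO]; ring
    · simp [mkO, iO, xO]; ring
    · simp [mkO, iO, xO]; ring
    · simp [mkO, iO, xO]; ring
  rw [this]
  exact Submodule.add_mem _ (Submodule.add_mem _ (Submodule.add_mem _
    (Submodule.smul_mem _ _ h1) (Submodule.smul_mem _ _ h2)) (Submodule.smul_mem _ _ h3))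
    (Submodule.smul_mem _ _ h4)

theorem embC_cases (φ : KK →+* ℂ) :
    φ = Complex.ofRealHom.comp vP ∨ φ = Complex.ofRealHom.comp vM := by
  have h1 : φ sK * φ sK = 2 := by rw [← map_mul, sK_sq, map_ofNat]
  have h2 : (φ sK - (√2 : ℝ)) * (φ sK + (√2 : ℝ)) = 0 := by
    have : ((√2 : ℝ) : ℂ) ^ 2 = 2 := by
      have := sqrt_two_sq
      exact_mod_cast this
    linear_combination h1 - this
  rcases mul_eq_zero.1 h2 with h | h
  · left
    apply emb_ext
    show φ sK = ((vP sK : ℝ) : ℂ)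
    rw [vP_sK]
    linear_combination h
  · right
    apply emb_ext
    show φ sK = ((vM sK : ℝ) : ℂ)
    rw [vM_sK]
    push_cast
    linear_combination h

theorem finite_int (B : ℝ) : {c : KK | IsIntegral ℤ c ∧ |vP c| ≤ B ∧ |vM c| ≤ B}.Finite := by
  refine (NumberField.Embeddings.finite_of_norm_le KK ℂ B).subset ?_
  rintro c ⟨h1, h2, h3⟩
  refine ⟨h1, fun φ => ?_⟩
  rcases embC_cases φ with rfl | rfl
  · simpa using h2
  · simpa using h3

theorem nrd_eq {q : BB} (h : q * star q = 1) :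
    q.re ^ 2 - aK * q.imI ^ 2 - bK * q.imJ ^ 2 + aK * bK * q.imK ^ 2 = 1 := by
  have := congrArg QuaternionAlgebra.re h
  simp at this
  linear_combination this

theorem mkO_coords (c0 c1 c2 c3 : KK) :
    c0 = (mkO c0 c1 c2 c3).re + sK * (mkO c0 c1 c2 c3).imJ - (2 + sK) * (mkO c0 c1 c2 c3).imK ∧
    c1 = (mkO c0 c1 c2 c3).imI + (mkO c0 c1 c2 c3).imJ + sK * (mkO c0 c1 c2 c3).imK ∧
    c2 = 2 * (mkO c0 c1 c2 c3).imJ ∧ c3 = 2 * (mkO c0 c1 c2 c3).imK := by
  simp only [mkO]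
  refine ⟨?_, ?_, ?_, ?_⟩ <;> ring

theorem abs_le_aux {a b c B : ℝ} (ha : |a| ≤ B) (hb : |b| ≤ B) (hc : |c| ≤ B) (s t : ℝ)
    (hs : |s| ≤ 4) (ht : |t| ≤ 4) : |a + s * b + t * c| ≤ 9 * B := by
  have hB : 0 ≤ B := (abs_nonneg a).trans ha
  have h1 : |s * b| ≤ 4 * B := by
    rw [abs_mul]; exact mul_le_mul hs hb (abs_nonneg _) (by norm_num)
  have h2 : |t * c| ≤ 4 * B := by
    rw [abs_mul]; exact mul_le_mul ht hc (abs_nonneg _) (by norm_num)
  calc |a + s * b + t * c| ≤ |a| + |s * b| + |t * c| := abs_add_three _ _ _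
    _ ≤ 9 * B := by linarith

/-- finitely many norm-one elements of the order with bounded image -/
theorem finite_order (C : ℝ) : {q : BB | q ∈ OO ∧ q * star q = 1 ∧ ∀ i j, |rhoB q i j| ≤ C}.Finite := by
  set B := max (C * 10) 10 with hB
  have hBpos : 10 ≤ B := le_max_right _ _
  have hCB : C * 10 ≤ B := le_max_left _ _
  have hfin := finite_int (9 * B)
  refine ((((hfin.prod hfin).prod (hfin.prod hfin)).image
    fun p : (KK × KK) × (KK × KK) => mkO p.1.1 p.1.2 p.2.1 p.2.2)).subset ?_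
  rintro q ⟨⟨c0, c1, c2, c3, i0, i1, i2, i3, hq⟩, hn, hb⟩
  have s2 := sqrt_two_sq
  have s1 := one_lt_sqrt_two
  have s3 : √2 < (1.5 : ℝ) := by rw [Real.sqrt_lt' (by norm_num)]; norm_num
  have kpos := kap_pos
  have hk := kap_sq
  have hkge : 0.8 ≤ kap := by nlinarith
  have hq1 := one_lt_qq
  have e1 : |vP q.re| ≤ B ∧ |vP q.imI| ≤ B ∧ |vP q.imJ| ≤ B ∧ |vP q.imK| ≤ B := by
    have b00 := hb 0 0
    have b01 := hb 0 1
    have b10 := hb 1 0
    have b11 := hb 1 1
    simp [rhoB] at b00 b01 b10 b11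
    rw [abs_le] at b00 b01 b10 b11
    have hC0 : 0 ≤ C := by linarith [b00.1, b00.2]
    have r1 : |vP q.re| ≤ C := by rw [abs_le]; constructor <;> linarith [b00.1, b00.2, b11.1, b11.2]
    have r2 : |qq * vP q.imJ| ≤ C := by
      rw [abs_le]; constructor <;> linarith [b00.1, b00.2, b11.1, b11.2]
    have r3 : |2 * kap * vP q.imI| ≤ C := by
      rw [abs_le]; constructor <;> linarith [b01.1, b01.2, b10.1, b10.2]
    have r4 : |2 * kap * qq * vP q.imK| ≤ C := by
      rw [abs_le]; constructor <;> linarith [b01.1, b01.2, b10.1, b10.2]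
    have aux : ∀ m x : ℝ, 1 ≤ m → |m * x| ≤ C → |x| ≤ C := by
      intro m x hm hx
      rw [abs_mul, abs_of_pos (by linarith)] at hx
      nlinarith [abs_nonneg x]
    refine ⟨by linarith, ?_, ?_, ?_⟩
    · have := aux _ _ (by linarith) r3; linarith
    · have := aux _ _ hq1.le r2; linarith
    · have := aux _ _ (by nlinarith) r4; linarith
  have e2 : |vM q.re| ≤ B ∧ |vM q.imI| ≤ B ∧ |vM q.imJ| ≤ B ∧ |vM q.imK| ≤ B := by
    have hN := congrArg vM (nrd_eq hn)
    simp only [map_add, map_sub, map_mul, map_pow, map_one] at hN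
    have hbM : vM bK = -√2 := vM_sK
    rw [vM_aK, hbM] at hN
    have aux : ∀ x : ℝ, x ^ 2 ≤ 4 → |x| ≤ B := by
      intro x hx
      have : |x| ≤ 2 := abs_le_of_sq_le_sq (by linarith) (by norm_num)
      linarith
    have p0 := sq_nonneg (vM q.re)
    have p1 := sq_nonneg (vM q.imI)
    have p2 := sq_nonneg (vM q.imJ)
    have p3 := sq_nonneg (vM q.imK)
    have w1 : (0.5 : ℝ) ≤ 2 - √2 := by linarith
    have w3 : (0.5 : ℝ) ≤ √2 * (2 - √2) := by nlinarith
    have q1 : 0.5 * vM q.imI ^ 2 ≤ (2 - √2) * vM q.imI ^ 2 := mul_le_mul_of_nonneg_right w1 p1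
    have q2 : vM q.imJ ^ 2 ≤ √2 * vM q.imJ ^ 2 := by nlinarith
    have q3 : 0.5 * vM q.imK ^ 2 ≤ √2 * (2 - √2) * vM q.imK ^ 2 :=
      mul_le_mul_of_nonneg_right w3 p3
    have hN' : vM q.re ^ 2 + (2 - √2) * vM q.imI ^ 2 + √2 * vM q.imJ ^ 2 +
        √2 * (2 - √2) * vM q.imK ^ 2 = 1 := by linarith
    refine ⟨aux _ (by linarith), aux _ (by linarith), aux _ (by linarith), aux _ (by linarith)⟩
  obtain ⟨m0, m1, m2, m3⟩ := mkO_coords c0 c1 c2 c3
  rw [← hq] at m0 m1 m2 m3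
  have k0 : |vP c0| ≤ 9 * B ∧ |vM c0| ≤ 9 * B := by
    constructor
    · have : vP c0 = vP q.re + √2 * vP q.imJ + (-(2 + √2)) * vP q.imK := by
        conv_lhs => rw [m0]
        simp only [map_add, map_sub, map_mul, map_ofNat, vP_sK]; ring
      rw [this]
      exact abs_le_aux e1.1 e1.2.2.1 e1.2.2.2 _ _ (by rw [abs_le]; constructor <;> linarith)
        (by rw [abs_le]; constructor <;> linarith)
    · have : vM c0 = vM q.re + (-√2) * vM q.imJ + (-(2 - √2)) * vM q.imK := by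
        conv_lhs => rw [m0]
        simp only [map_add, map_sub, map_mul, map_ofNat, vM_sK]; ring
      rw [this]
      exact abs_le_aux e2.1 e2.2.2.1 e2.2.2.2 _ _ (by rw [abs_le]; constructor <;> linarith)
        (by rw [abs_le]; constructor <;> linarith)
  have k1 : |vP c1| ≤ 9 * B ∧ |vM c1| ≤ 9 * B := by
    constructor
    · have : vP c1 = vP q.imI + 1 * vP q.imJ + √2 * vP q.imK := by
        conv_lhs => rw [m1]
        simp only [map_add, map_mul, vP_sK]; ring
      rw [this]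
      exact abs_le_aux e1.2.1 e1.2.2.1 e1.2.2.2 _ _ (by norm_num)
        (by rw [abs_le]; constructor <;> linarith)
    · have : vM c1 = vM q.imI + 1 * vM q.imJ + (-√2) * vM q.imK := by
        conv_lhs => rw [m1]
        simp only [map_add, map_mul, vM_sK]; ring
      rw [this]
      exact abs_le_aux e2.2.1 e2.2.2.1 e2.2.2.2 _ _ (by norm_num)
        (by rw [abs_le]; constructor <;> linarith)
  have k2 : |vP c2| ≤ 9 * B ∧ |vM c2| ≤ 9 * B := by
    constructor
    · conv_lhs => rw [m2]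
      rw [map_mul, map_ofNat, abs_mul, abs_of_pos (by norm_num : (0 : ℝ) < 2)]
      linarith [e1.2.2.1]
    · conv_lhs => rw [m2]
      rw [map_mul, map_ofNat, abs_mul, abs_of_pos (by norm_num : (0 : ℝ) < 2)]
      linarith [e2.2.2.1]
  have k3 : |vP c3| ≤ 9 * B ∧ |vM c3| ≤ 9 * B := by
    constructor
    · conv_lhs => rw [m3]
      rw [map_mul, map_ofNat, abs_mul, abs_of_pos (by norm_num : (0 : ℝ) < 2)]
      linarith [e1.2.2.2]
    · conv_lhs => rw [m3]
      rw [map_mul, map_ofNat, abs_mul, abs_of_pos (by norm_num : (0 : ℝ) < 2)]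
      linarith [e2.2.2.2]
  exact ⟨((c0, c1), (c2, c3)), ⟨⟨⟨i0, k0.1, k0.2⟩, ⟨i1, k1.1, k1.2⟩⟩, ⟨⟨i2, k2.1, k2.2⟩,
    ⟨i3, k3.1, k3.2⟩⟩⟩, hq.symm⟩

theorem discrete_imageO : Discrete (imageO rhoB OO) := by
  intro K hK
  -- the elements of SL(2, ℝ) moving K to itself are bounded
  have hcomp : IsCompact {g : SL(2, ℝ) | ∃ z ∈ K, g • z ∈ K} := by
    have h1 : IsProperMap fun p : SL(2, ℝ) × ℍ => (p.1 • p.2, p.2) := ProperSMul.isProperMap_smul_pair
    have h2 := (h1.isCompact_preimage (hK.prod hK)).image continuous_fst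
    convert h2 using 1
    ext g
    constructor
    · rintro ⟨z, hz, hgz⟩
      exact ⟨(g, z), ⟨hgz, hz⟩, rfl⟩
    · rintro ⟨⟨g', z⟩, ⟨h3, h4⟩, rfl⟩
      exact ⟨z, h4, h3⟩
  obtain ⟨C, hC⟩ : ∃ C : ℝ, ∀ g ∈ {g : SL(2, ℝ) | ∃ z ∈ K, g • z ∈ K}, ∀ i j,
      |(g : Matrix (Fin 2) (Fin 2) ℝ) i j| ≤ C := by
    have hc : Continuous fun g : SL(2, ℝ) => ∑ i, ∑ j, |(g : Matrix (Fin 2) (Fin 2) ℝ) i j| := by
      refine continuous_finsetSum _ fun i _ => continuous_finsetSum _ fun j _ => ?_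
      exact (continuous_apply_apply i j).comp continuous_subtype_val |>.abs
    obtain ⟨C, hC⟩ := (hcomp.image hc).isBounded.subset_closedBall 0
    refine ⟨C, fun g hg i j => ?_⟩
    have h1 := hC ⟨g, hg, rfl⟩
    rw [Metric.mem_closedBall, dist_zero_right, Real.norm_eq_abs] at h1
    refine le_trans ?_ ((le_abs_self _).trans h1)
    have h2 : |(g : Matrix (Fin 2) (Fin 2) ℝ) i j| ≤ ∑ j', |(g : Matrix (Fin 2) (Fin 2) ℝ) i j'| :=
      Finset.single_le_sum (f := fun j' => |(g : Matrix (Fin 2) (Fin 2) ℝ) i j'|)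
        (fun _ _ => abs_nonneg _) (Finset.mem_univ j)
    exact h2.trans (Finset.single_le_sum
      (f := fun i' => ∑ j', |(g : Matrix (Fin 2) (Fin 2) ℝ) i' j'|)
      (fun _ _ => Finset.sum_nonneg fun _ _ => abs_nonneg _) (Finset.mem_univ i))
  have hfin := ((finite_order C).image rhoB).preimage
    (f := fun g : SL(2, ℝ) => (g : Matrix (Fin 2) (Fin 2) ℝ)) Subtype.val_injective.injOn
  refine (hfin.image slHom).subset ?_
  rintro _ ⟨⟨g, ⟨u, hu, hug⟩, rfl⟩, _, ⟨z, hz, rfl⟩, hz'⟩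
  refine ⟨g, ?_, rfl⟩
  have e : rhoB (u : BB) = (g : Matrix (Fin 2) (Fin 2) ℝ) := by
    have := congrArg (fun x : GL (Fin 2) ℝ => (x : Matrix (Fin 2) (Fin 2) ℝ)) hug
    exact this
  refine ⟨u, ⟨hu.1, hu.2.2, fun i j => ?_⟩, e⟩
  rw [e]
  exact hC g ⟨z, hz, hz'⟩ i j

end Iso180
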