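import Pool.Agent.Work.MP_180c68_gt.Basic

/-!
MP_180c68_gt: the quaternion algebra `(-(2 + √2), √2)` over `ℚ(√2)` and an order in it.
-/

set_option autoImplicit false

open UpperHalfPlane MeasureTheory
open scoped MatrixGroups ContDiff ComplexConjugate

namespace Iso180

instance fact2 : Fact (∀ r : ℚ, r ^ 2 ≠ 2 + 0 * r) := ⟨by
  intro r h
  rw [zero_mul, add_zero] at h
  have h1 : ((r : ℝ)) ^ 2 = 2 := by exact_mod_cast h
  have h2 : √2 = |(r : ℝ)| := by rw [← h1, Real.sqrt_sq_eq_abs]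
  refine irrational_sqrt_two ⟨|r|, ?_⟩
  rw [h2]
  push_cast
  rfl⟩

/-- the field `ℚ(√2)` -/
abbrev KK : Type := QuadraticAlgebra ℚ 2 0

instance finKK : FiniteDimensional ℚ KK := by
  have h : Module.Finite ℚ (QuadraticAlgebra ℚ 2 0) := inferInstance
  convert h

instance nfKK : NumberField KK where
  to_charZero := inferInstance
  to_finiteDimensional := by
    have h : Module.Finite ℚ (QuadraticAlgebra ℚ 2 0) := inferInstance
    convert h

/-- `√2` in `KK` -/
def sK : KK := ⟨0, 1⟩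

theorem two_KK : (2 : KK) = ⟨2, 0⟩ := rfl

theorem sK_sq : sK * sK = 2 := by
  rw [two_KK]
  ext <;> simp [sK]

/-- elements of `KK` are `x + y √2` -/
theorem KK_eq (z : KK) : z = (z.re : KK) + (z.im : KK) * sK := by
  ext <;> simp [sK]

/-- the identity embedding -/
noncomputable def vP : KK →+* ℝ where
  toFun z := (z.re : ℝ) + z.im * √2
  map_one' := by
    show ((1 : ℚ) : ℝ) + ((0 : ℚ) : ℝ) * √2 = 1
    norm_num
  map_zero' := by simp
  map_add' x y := by simp; ring
  map_mul' x y := by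
    simp
    have := sqrt_two_sq
    linear_combination ((x.im : ℝ) * y.im) * (- this)

/-- the other embedding -/
noncomputable def vM : KK →+* ℝ where
  toFun z := (z.re : ℝ) - z.im * √2
  map_one' := by
    show ((1 : ℚ) : ℝ) - ((0 : ℚ) : ℝ) * √2 = 1
    norm_num
  map_zero' := by simp
  map_add' x y := by simp; ring
  map_mul' x y := by
    simp
    have := sqrt_two_sq
    linear_combination ((x.im : ℝ) * y.im) * (- this)

theorem vP_sK : vP sK = √2 := by simp [vP, sK]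

theorem vM_sK : vM sK = -√2 := by simp [vM, sK]

theorem emb_ext {R : Type*} [Field R] [CharZero R] (f g : KK →+* R) (h : f sK = g sK) :
    f = g := by
  ext z
  rw [KK_eq z, map_add, map_mul, map_add, map_mul, h, map_ratCast, map_ratCast, map_ratCast,
    map_ratCast]

theorem emb_cases (v : KK →+* ℝ) : v = vP ∨ v = vM := by
  have h1 : v sK * v sK = 2 := by rw [← map_mul, sK_sq, map_ofNat]
  have h2 : (v sK - √2) * (v sK + √2) = 0 := by
    have := sqrt_two_sq
    nlinarith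
  rcases mul_eq_zero.1 h2 with h | h
  · left; apply emb_ext; rw [vP_sK]; linarith
  · right; apply emb_ext; rw [vM_sK]; linarith

instance totRealKK : NumberField.IsTotallyReal KK where
  isReal v := by
    obtain ⟨φ, rfl⟩ : ∃ φ : KK →+* ℂ, NumberField.InfinitePlace.mk φ = v :=
      ⟨v.embedding, NumberField.InfinitePlace.mk_embedding v⟩
    rw [NumberField.InfinitePlace.isReal_mk_iff]
    rw [NumberField.ComplexEmbedding.isReal_iff]
    apply emb_ext
    rw [NumberField.ComplexEmbedding.conjugate_coe_eq]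
    have h1 : φ sK * φ sK = 2 := by rw [← map_mul, sK_sq, map_ofNat]
    have h2 : (φ sK - (√2 : ℝ)) * (φ sK + (√2 : ℝ)) = 0 := by
      have : ((√2 : ℝ) : ℂ) ^ 2 = 2 := by
        have := sqrt_two_sq
        exact_mod_cast this
      linear_combination h1 - this
    rcases mul_eq_zero.1 h2 with h | h
    · rw [sub_eq_zero.1 h, Complex.conj_ofReal]
    · rw [eq_neg_of_add_eq_zero_left h, map_neg, Complex.conj_ofReal]

/-- `i ^ 2` -/
def aK : KK := -(2 + sK)

/-- `j ^ 2` -/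
def bK : KK := sK

/-- the quaternion algebra -/
abbrev BB : Type := QuaternionAlgebra KK aK 0 bK

theorem vP_aK : vP aK = -(2 + √2) := by rw [aK, map_neg, map_add, vP_sK, map_ofNat]

theorem vM_aK : vM aK = -(2 - √2) := by rw [aK, map_neg, map_add, vM_sK, map_ofNat]; ring

theorem vM_neg : vM aK < 0 ∧ vM bK < 0 := by
  have h2 : √2 < (2 : ℝ) := by
    have := sqrt_two_sq
    have := one_lt_sqrt_two
    nlinarith
  rw [vM_aK, bK, vM_sK]
  constructor
  · linarith
  · linarith [one_lt_sqrt_two]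

theorem aK_ne : aK ≠ 0 := by
  intro h
  have := vM_neg.1
  rw [h, map_zero] at this
  exact lt_irrefl _ this

theorem bK_ne : bK ≠ 0 := by
  intro h
  have := vM_neg.2
  rw [h, map_zero] at this
  exact lt_irrefl _ this

/-- the splitting at the identity place -/
noncomputable def rhoB : BB →+* Matrix (Fin 2) (Fin 2) ℝ where
  toFun q := !![vP q.re + qq * vP q.imJ, 2 * kap * vP q.imI - 2 * kap * qq * vP q.imK;
    -(2 * kap * vP q.imI) - 2 * kap * qq * vP q.imK, vP q.re - qq * vP q.imJ]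
  map_one' := by
    ext i j; fin_cases i <;> fin_cases j <;> simp
  map_zero' := by
    ext i j; fin_cases i <;> fin_cases j <;> simp
  map_add' x y := by
    ext i j; fin_cases i <;> fin_cases j <;> simp <;> ring
  map_mul' x y := by
    have ha := vP_aK
    have hb : vP bK = √2 := vP_sK
    have hk := kap_sq
    have hq := qq_sq
    have h4 : 4 * kap ^ 2 = 2 + √2 := by rw [hk]; ring
    ext i j; fin_cases i <;> fin_cases j
    · simp [Matrix.mul_apply, Fin.sum_univ_two]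
      rw [ha, hb, ← h4, ← hq]; ring
    · simp [Matrix.mul_apply, Fin.sum_univ_two]
      rw [hb, ← hq]; ring
    · simp [Matrix.mul_apply, Fin.sum_univ_two]
      rw [hb, ← hq]; ring
    · simp [Matrix.mul_apply, Fin.sum_univ_two]
      rw [ha, hb, ← h4, ← hq]; ring

theorem rhoB_algebraMap (k : KK) :
    rhoB (algebraMap KK BB k) = vP k • (1 : Matrix (Fin 2) (Fin 2) ℝ) := by
  ext i j; fin_cases i <;> fin_cases j <;> simp [rhoB]

/-- the element `c0 + c1 i + c2 x + c3 i x`, with `x = (-√2 - i + j) / 2` -/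
def mkO (c0 c1 c2 c3 : KK) : BB :=
  ⟨c0 - sK * c2 / 2 + (2 + sK) * c3 / 2, c1 - c2 / 2 - sK * c3 / 2, c2 / 2, c3 / 2⟩

theorem mkO_mul (c0 c1 c2 c3 d0 d1 d2 d3 : KK) :
    mkO c0 c1 c2 c3 * mkO d0 d1 d2 d3 =
      mkO (c0 * d0 + aK * (c1 * d1) - aK * (c2 * d1) - c2 * d2 - sK * aK * (c3 * d1)
          + aK * (c3 * d3))
        (c0 * d1 + c1 * d0 - sK * (c2 * d1) + c2 * d3 - aK * (c3 * d1) - c3 * d2)
        (c0 * d2 + c2 * d0 + aK * (c1 * d3) - sK * (c2 * d2) - aK * (c2 * d3) - aK * (c3 * d1))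
        (c0 * d3 + c3 * d0 + c1 * d2 - c2 * d1 - sK * (c3 * d2) - aK * (c3 * d3)) := by
  have hs := sK_sq
  simp only [mkO]
  rw [QuaternionAlgebra.mk_mul_mk]
  apply QuaternionAlgebra.ext
  · dsimp only
    rw [aK, bK]
    linear_combination (-(1 / 4) * c3 * d3 * sK - 1 / 4 * c2 * d2 - 1 / 2 * c3 * d3) * hs
  · dsimp only
    rw [aK, bK]
    linear_combination (1 / 4 * c2 * d3 - 1 / 4 * c3 * d2) * hs
  · dsimp only
    rw [aK]
    ring
  · dsimp only
    rw [aK]
    ring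

theorem sK_int : IsIntegral ℤ sK := by
  refine ⟨Polynomial.X ^ 2 - Polynomial.C 2, Polynomial.monic_X_pow_sub_C _ (by norm_num), ?_⟩
  simp [pow_two, sK_sq]

theorem aK_int : IsIntegral ℤ aK := by
  have : IsIntegral ℤ (2 : KK) := by exact_mod_cast isIntegral_algebraMap (R := ℤ) (x := 2)
  exact (this.add sK_int).neg

/-- the order -/
def OO : Subring BB where
  carrier := {q | ∃ c0 c1 c2 c3 : KK, IsIntegral ℤ c0 ∧ IsIntegral ℤ c1 ∧ IsIntegral ℤ c2 ∧
    IsIntegral ℤ c3 ∧ q = mkO c0 c1 c2 c3}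
  mul_mem' := by
    rintro _ _ ⟨c0, c1, c2, c3, h0, h1, h2, h3, rfl⟩ ⟨d0, d1, d2, d3, k0, k1, k2, k3, rfl⟩
    have hs := sK_int
    have ha := aK_int
    refine ⟨_, _, _, _, ?_, ?_, ?_, ?_, mkO_mul c0 c1 c2 c3 d0 d1 d2 d3⟩
    · exact (((((h0.mul k0).add (ha.mul (h1.mul k1))).sub (ha.mul (h2.mul k1))).sub
        (h2.mul k2)).sub ((hs.mul ha).mul (h3.mul k1))).add (ha.mul (h3.mul k3))
    · exact (((((h0.mul k1).add (h1.mul k0)).sub (hs.mul (h2.mul k1))).add (h2.mul k3)).sub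
        (ha.mul (h3.mul k1))).sub (h3.mul k2)
    · exact (((((h0.mul k2).add (h2.mul k0)).add (ha.mul (h1.mul k3))).sub
        (hs.mul (h2.mul k2))).sub (ha.mul (h2.mul k3))).sub (ha.mul (h3.mul k1))
    · exact (((((h0.mul k3).add (h3.mul k0)).add (h1.mul k2)).sub (h2.mul k1)).sub
        (hs.mul (h3.mul k2))).sub (ha.mul (h3.mul k3))
  one_mem' := ⟨1, 0, 0, 0, isIntegral_one, isIntegral_zero, isIntegral_zero, isIntegral_zero, by
    apply QuaternionAlgebra.ext <;> simp [mkO]⟩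
  add_mem' := by
    rintro _ _ ⟨c0, c1, c2, c3, h0, h1, h2, h3, rfl⟩ ⟨d0, d1, d2, d3, k0, k1, k2, k3, rfl⟩
    refine ⟨c0 + d0, c1 + d1, c2 + d2, c3 + d3, h0.add k0, h1.add k1, h2.add k2, h3.add k3, ?_⟩
    apply QuaternionAlgebra.ext <;> simp [mkO] <;> ring
  zero_mem' := ⟨0, 0, 0, 0, isIntegral_zero, isIntegral_zero, isIntegral_zero, isIntegral_zero, by
    apply QuaternionAlgebra.ext <;> simp [mkO]⟩
  neg_mem' := by
    rintro _ ⟨c0, c1, c2, c3, h0, h1, h2, h3, rfl⟩
    refine ⟨-c0, -c1, -c2, -c3, h0.neg, h1.neg, h2.neg, h3.neg, ?_⟩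
    apply QuaternionAlgebra.ext <;> simp [mkO] <;> ring

/-- the element `x` -/
def xO : BB := mkO 0 0 1 0

/-- the element `i` -/
def iO : BB := mkO 0 1 0 0

theorem xO_mem : xO ∈ OO :=
  ⟨0, 0, 1, 0, isIntegral_zero, isIntegral_zero, isIntegral_one, isIntegral_zero, rfl⟩

theorem iO_mem : iO ∈ OO :=
  ⟨0, 1, 0, 0, isIntegral_zero, isIntegral_one, isIntegral_zero, isIntegral_zero, rfl⟩

theorem mem_OO_iff {q : BB} : q ∈ OO ↔ ∃ c0 c1 c2 c3 : KK, IsIntegral ℤ c0 ∧ IsIntegral ℤ c1 ∧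
    IsIntegral ℤ c2 ∧ IsIntegral ℤ c3 ∧ q = mkO c0 c1 c2 c3 := Iff.rfl

end Iso180
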