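import Pool.Agent.Work.MP_180c68_gt.Lor

/-!
MP_180c68_gt: the triangle `tri` is a strict fundamental domain of the Coxeter group.
-/

set_option autoImplicit false

open UpperHalfPlane MeasureTheory Metric
open scoped MatrixGroups ContDiff ComplexConjugate
open Pool.Agent.Work.MP_de2d29_al

namespace Iso180

/-- the open triangle -/
def triO : Set ℍ := {z | Phi z ∈ RootBasis.Int BL ev}

theorem mem_triO {z : ℍ} : z ∈ triO ↔ (0 < z.re ∧ 1 < z.re ^ 2 + z.im ^ 2 ∧
    0 < alp - del * (z.re ^ 2 + z.im ^ 2) - 2 * kap * z.re) := by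
  have hy := z.im_pos
  have hy' := hy.ne'
  have e0 : BL (Phi z) (ev 0) = -(z.re / z.im) := by simp [BL_apply, Phi, ev]
  have e1 : BL (Phi z) (ev 1) = (1 - (z.re ^ 2 + z.im ^ 2)) / (2 * z.im) := by
    simp [BL_apply, Phi, ev]; field_simp; ring
  have e2 : BL (Phi z) (ev 2) =
      -(alp - del * (z.re ^ 2 + z.im ^ 2) - 2 * kap * z.re) / (2 * z.im) := by
    simp [BL_apply, Phi, ev]; field_simp; ring
  have h2 : (0 : ℝ) < 2 * z.im := by positivity
  constructor
  · intro h
    have h0 := h 0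
    have h1 := h 1
    have h3 := h 2
    rw [e0, neg_lt_zero, div_pos_iff_of_pos_right hy] at h0
    rw [e1, div_lt_iff₀ h2, zero_mul] at h1
    rw [e2, div_lt_iff₀ h2, zero_mul] at h3
    exact ⟨h0, by linarith, by linarith⟩
  · rintro ⟨h0, h1, h3⟩ s
    fin_cases s
    · show BL (Phi z) (ev 0) < 0
      rw [e0, neg_lt_zero, div_pos_iff_of_pos_right hy]
      exact h0
    · show BL (Phi z) (ev 1) < 0
      rw [e1, div_lt_iff₀ h2, zero_mul]
      linarith
    · show BL (Phi z) (ev 2) < 0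
      rw [e2, div_lt_iff₀ h2, zero_mul]
      linarith

theorem isOpen_triO : IsOpen triO := by
  have : triO = {z : ℍ | 0 < z.re} ∩ ({z : ℍ | 1 < z.re ^ 2 + z.im ^ 2} ∩
      {z : ℍ | 0 < alp - del * (z.re ^ 2 + z.im ^ 2) - 2 * kap * z.re}) := by
    ext z
    rw [mem_triO]
    rfl
  rw [this]
  have c1 : Continuous fun z : ℍ => z.re := continuous_re
  have c2 : Continuous fun z : ℍ => z.im := continuous_im
  refine (isOpen_lt continuous_const c1).inter ((isOpen_lt continuous_const (by fun_prop)).inter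
    (isOpen_lt continuous_const (by fun_prop)))

/-- base point -/
noncomputable def p0 : ℍ := ⟨⟨1 / 5, 3 / 2⟩, by norm_num⟩

theorem kap_le_one : kap ≤ 1 := Real.cos_le_one _

theorem p0_mem : p0 ∈ triO := by
  rw [mem_triO]
  have h1 : p0.re = 1 / 5 := rfl
  have h2 : p0.im = 3 / 2 := rfl
  rw [h1, h2]
  refine ⟨by norm_num, by norm_num, ?_⟩
  have h3 : (1.4 : ℝ) < √2 := by rw [Real.lt_sqrt (by norm_num)]; norm_num
  have h4 : √2 < (1.42 : ℝ) := by rw [Real.sqrt_lt' (by norm_num)]; norm_num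
  have h5 := one_lt_qq
  have h6 := kap_le_one
  have h7 : alp = (√2 + qq) / 2 := rfl
  have h8 : del = (√2 - qq) / 2 := rfl
  rw [h7, h8]
  nlinarith

theorem triO_subset : triO ⊆ tri := fun _ hz => mem_tri.2 (RootBasis.Int_subset hz)

/-- tiles do not overlap -/
theorem eq_one_of_mem_tri {w : W} {z : ℍ} (hz : z ∈ triO) (hw : psi w z ∈ tri) : w = 1 :=
  rootBasis.eq_one_of_mem cs hz w (by rw [← Phi_psi]; exact mem_tri.1 hw)

theorem psi_injective : Function.Injective psi := by
  rw [injective_iff_map_eq_one]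
  intro w hw
  refine eq_one_of_mem_tri p0_mem ?_
  rw [hw]
  exact triO_subset p0_mem

theorem exists_sep : ∃ δ > 0, ∀ w w' : W, w ≠ w' → δ ≤ dist (psi w p0) (psi w' p0) := by
  obtain ⟨δ, hδ, hb⟩ := Metric.isOpen_iff.1 isOpen_triO p0 p0_mem
  refine ⟨δ, hδ, fun w w' hne => ?_⟩
  by_contra hlt
  push Not at hlt
  have h1 : dist (psi (w'⁻¹ * w) p0) p0 < δ := by
    have : dist (psi w' (psi (w'⁻¹ * w) p0)) (psi w' p0) < δ := by
      rw [← psi_mul, mul_inv_cancel_left]; exact hlt
    rwa [(psi w').isometry.dist_eq] at this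
  have h2 := eq_one_of_mem_tri p0_mem (triO_subset (hb h1))
  exact hne (inv_mul_eq_one.1 h2).symm

theorem finite_ball (R : ℝ) : {w : W | dist (psi w p0) p0 ≤ R}.Finite := by
  obtain ⟨δ, hδ, hs⟩ := exists_sep
  obtain ⟨t, -, ht, hcov⟩ := (isCompact_closedBall p0 R).finite_cover_balls (half_pos hδ)
  have key : ∀ w : W, dist (psi w p0) p0 ≤ R → ∃ c ∈ t, dist (psi w p0) c < δ / 2 := by
    intro w hw
    have := hcov (show psi w p0 ∈ closedBall p0 R from hw)
    simp only [Set.mem_iUnion, mem_ball, exists_prop] at this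
    exact this
  choose! c hc hcd using key
  refine Set.Finite.of_finite_image (f := c) (ht.subset ?_) ?_
  · rintro _ ⟨w, hw, rfl⟩
    exact hc w hw
  · intro w hw w' hw' h
    by_contra hne
    have h1 := hs w w' hne
    have h2 := hcd w hw
    have h3 := hcd w' hw'
    rw [← h] at h3
    have := dist_triangle_right (psi w p0) (psi w' p0) (c w)
    linarith

/-- the translates of the closed triangle cover the plane -/
theorem exists_mem_tri (z : ℍ) : ∃ w : W, psi w z ∈ tri := by
  have hfin : {w : W | dist (psi w z) p0 ≤ dist z p0}.Finite := by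
    refine (finite_ball (2 * dist z p0)).subset fun w hw => ?_
    have h1 := dist_triangle (psi w p0) (psi w z) p0
    rw [(psi w).isometry.dist_eq, dist_comm p0 z] at h1
    have h2 : dist (psi w z) p0 ≤ dist z p0 := hw
    show dist (psi w p0) p0 ≤ 2 * dist z p0
    linarith
  obtain ⟨w, hw, hmin⟩ := Set.exists_min_image _ (fun w : W => dist (psi w z) p0) hfin
    ⟨1, by rw [Set.mem_ofPred_eq, psi_one]⟩
  have hall : ∀ w' : W, dist (psi w z) p0 ≤ dist (psi w' z) p0 := by
    intro w'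
    by_cases h : dist (psi w' z) p0 ≤ dist z p0
    · exact hmin w' h
    · push Not at h
      exact (show dist (psi w z) p0 ≤ dist z p0 from hw).trans h.le
  refine ⟨w, mem_tri.2 fun s => ?_⟩
  have h1 := hall (cs.simple s * w)
  have h2 : Real.cosh (dist (psi w z) p0) ≤ Real.cosh (dist (psi (cs.simple s * w) z) p0) :=
    Real.cosh_le_cosh.2 (by rwa [abs_of_nonneg dist_nonneg, abs_of_nonneg dist_nonneg])
  have h3 := BL_Phi (psi w z) p0
  have h4 := BL_Phi (psi (cs.simple s * w) z) p0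
  rw [psi_mul, psi_simple, Phi_rfl, RootBasis.rr_apply] at h4
  simp only [map_sub, map_smul, LinearMap.sub_apply, LinearMap.smul_apply, smul_eq_mul] at h4
  rw [psi_mul, psi_simple] at h2
  have h5 : BL (ev s) (Phi p0) < 0 := by
    rw [rootBasis.symm]; exact p0_mem s
  have h6 : 0 ≤ BL (ev s) (Phi (psi w z)) * BL (ev s) (Phi p0) := by nlinarith
  rw [rootBasis.symm]
  by_contra hc
  push Not at hc
  nlinarith

theorem discrete_range : Discrete psi.range := by
  intro K hK
  obtain ⟨R, hR⟩ := hK.isBounded.subset_closedBall p0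
  refine ((finite_ball (2 * R)).image psi).subset ?_
  rintro g ⟨⟨w, rfl⟩, _, ⟨z, hz, rfl⟩, hz'⟩
  refine ⟨w, ?_, rfl⟩
  have h1 : dist z p0 ≤ R := hR hz
  have h2 : dist (psi w z) p0 ≤ R := hR hz'
  have h3 := dist_triangle (psi w p0) (psi w z) p0
  rw [(psi w).isometry.dist_eq, dist_comm p0 z] at h3
  show dist (psi w p0) p0 ≤ 2 * R
  linarith

theorem Discrete.mono {Γ Γ' : Subgroup (ℍ ≃ᵢ ℍ)} (h : Γ ≤ Γ') (h' : Discrete Γ') : Discrete Γ :=
  fun K hK => (h' K hK).subset fun _ hg => ⟨h hg.1, hg.2⟩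

theorem psi_range : psi.range = Gam0 := by
  apply le_antisymm
  · rintro _ ⟨w, rfl⟩
    induction w using RootBasis.simple_induction cs with
    | one => rw [map_one]; exact Gam0.one_mem
    | mul s w ih =>
      rw [map_mul, psi_simple]
      refine Gam0.mul_mem (Subgroup.subset_closure ?_) ih
      fin_cases s <;> simp [rfl3]
  · rw [Gam0, Subgroup.closure_le]
    rintro g (rfl | rfl | rfl)
    · exact ⟨cs.simple 0, psi_simple 0⟩
    · exact ⟨cs.simple 1, psi_simple 1⟩
    · exact ⟨cs.simple 2, psi_simple 2⟩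

end Iso180
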